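import Pool.Agent.Lib.H69.Formation.Defs

namespace Pool.Agent.H69

open Subgroup

namespace Formation

variable (F : Formation)

theorem mem_of_surjective {G H : Type} [Group G] [Group H] (f : G →* H)
    (hf : Function.Surjective f) (h : F.mem G) : F.mem H :=
  F.iso _ _ (QuotientGroup.quotientKerEquivOfSurjective f hf) (F.quot G f.ker h)

theorem mem_subdirect {G A B : Type} [Group G] [Finite G] [Group A] [Group B] (f : G →* A)
    (g : G →* B) (hf : Function.Surjective f) (hg : Function.Surjective g)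
    (hfg : f.ker ⊓ g.ker = ⊥) (hA : F.mem A) (hB : F.mem B) : F.mem G := by
  have h1 : F.mem (G ⧸ f.ker) :=
    F.iso _ _ (QuotientGroup.quotientKerEquivOfSurjective f hf).symm hA
  have h2 : F.mem (G ⧸ g.ker) :=
    F.iso _ _ (QuotientGroup.quotientKerEquivOfSurjective g hg).symm hB
  have h3 := F.inter G f.ker g.ker h1 h2
  have e : (G ⧸ (f.ker ⊓ g.ker)) ≃* G :=
    (QuotientGroup.quotientMulEquivOfEq hfg).trans QuotientGroup.quotientBot
  exact F.iso _ _ e h3

/-- The residual: the smallest normal subgroup with quotient in the formation. -/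
theorem exists_residual {X : Type} [Group X] (hX : F.mem X) (G : Type) [Group G] [Finite G] :
    ∃ L : Subgroup G, ∃ _ : L.Normal, F.mem (G ⧸ L) ∧
      ∀ M : Subgroup G, ∀ _ : M.Normal, F.mem (G ⧸ M) → L ≤ M := by
  classical
  have htop : F.mem (G ⧸ (⊤ : Subgroup G)) := by
    refine F.mem_of_surjective (1 : X →* (G ⧸ (⊤ : Subgroup G))) ?_ hX
    intro y
    refine ⟨1, ?_⟩
    obtain ⟨z, rfl⟩ := QuotientGroup.mk_surjective y
    exact ((QuotientGroup.eq_one_iff z).mpr (Subgroup.mem_top z)).symm
  let S : Set (Subgroup G) := {L | ∃ _ : L.Normal, F.mem (G ⧸ L)}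
  have hS : S.Nonempty := ⟨⊤, inferInstance, htop⟩
  obtain ⟨L, hL⟩ := (Set.toFinite S).exists_minimal hS
  obtain ⟨hLn, hLF⟩ := hL.prop
  refine ⟨L, hLn, hLF, ?_⟩
  intro M hM hMF
  have h3 : L ⊓ M ∈ S := ⟨inferInstance, F.inter G L M hLF hMF⟩
  have h4 := hL.le_of_le h3 inf_le_left
  exact h4.trans inf_le_right

theorem mem_of_family {X : Type} [Group X] (hX : F.mem X) {G : Type} [Group G] [Finite G]
    {ι : Type*} (Z : ι → Type) [∀ i, Group (Z i)] (f : ∀ i, G →* Z i)
    (hf : ∀ i, Function.Surjective (f i)) (hZ : ∀ i, F.mem (Z i))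
    (hinj : ∀ g, (∀ i, f i g = 1) → g = 1) : F.mem G := by
  obtain ⟨L, hLn, hLF, hL⟩ := F.exists_residual hX G
  have h1 : ∀ i, L ≤ (f i).ker := fun i => hL _ inferInstance
    (F.iso _ _ (QuotientGroup.quotientKerEquivOfSurjective (f i) (hf i)).symm (hZ i))
  have hbot : L = ⊥ := by
    rw [eq_bot_iff]
    intro g hg
    exact hinj g fun i => h1 i hg
  subst hbot
  exact F.iso _ _ QuotientGroup.quotientBot hLF

theorem mem_prod {A B : Type} [Group A] [Group B] (hA : F.mem A) (hB : F.mem B) :
    F.mem (A × B) := by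
  have := F.finite A hA
  have := F.finite B hB
  refine F.mem_subdirect (MonoidHom.fst A B) (MonoidHom.snd A B) Prod.fst_surjective
    Prod.snd_surjective ?_ hA hB
  rw [eq_bot_iff]
  rintro ⟨a, b⟩ ⟨h1, h2⟩
  exact Prod.ext h1 h2

/-- A convenient constructor for formations from homomorphism-closed predicates. -/
def ofHom (P : ∀ (G : Type) [Group G], Prop)
    (hfin : ∀ (G : Type) [Group G], P G → Finite G)
    (hsurj : ∀ (G H : Type) [Group G] [Group H] (f : G →* H), Function.Surjective f → P G → P H)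
    (hsub : ∀ (G : Type) [Group G] [Finite G] (N₁ N₂ : Subgroup G) [N₁.Normal] [N₂.Normal],
      N₁ ⊓ N₂ = ⊥ → P (G ⧸ N₁) → P (G ⧸ N₂) → P G) : Formation where
  mem := P
  finite := hfin
  iso := fun G H _ _ e h => hsurj G H e.toMonoidHom e.surjective h
  quot := fun G _ N _ h => hsurj G (G ⧸ N) (QuotientGroup.mk' N) (QuotientGroup.mk'_surjective N) h
  inter := by
    intro G _ _ N₁ N₂ _ _ h1 h2
    have hN : N₁ ⊓ N₂ ≤ N₁ := inf_le_left
    have hN' : N₁ ⊓ N₂ ≤ N₂ := inf_le_right
    refine hsub (G ⧸ (N₁ ⊓ N₂)) (N₁.map (QuotientGroup.mk' (N₁ ⊓ N₂)))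
      (N₂.map (QuotientGroup.mk' (N₁ ⊓ N₂))) ?_ ?_ ?_
    · rw [eq_bot_iff]
      rintro x ⟨⟨a, ha, rfl⟩, ⟨b, hb, hab⟩⟩
      rw [Subgroup.mem_bot, QuotientGroup.mk'_apply, QuotientGroup.eq_one_iff]
      refine ⟨ha, ?_⟩
      rw [QuotientGroup.mk'_apply, QuotientGroup.mk'_apply, QuotientGroup.eq] at hab
      have : a = b * (b⁻¹ * a) := by group
      rw [this]
      exact mul_mem hb hab.2
    · exact hsurj _ _ (QuotientGroup.quotientQuotientEquivQuotient _ _ hN).symm.toMonoidHom
        (QuotientGroup.quotientQuotientEquivQuotient _ _ hN).symm.surjective h1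
    · exact hsurj _ _ (QuotientGroup.quotientQuotientEquivQuotient _ _ hN').symm.toMonoidHom
        (QuotientGroup.quotientQuotientEquivQuotient _ _ hN').symm.surjective h2

@[simp] theorem ofHom_mem (P : ∀ (G : Type) [Group G], Prop) (h1 h2 h3) (G : Type) [Group G] :
    (ofHom P h1 h2 h3).mem G ↔ P G := Iff.rfl

/-- The formation generated by a finite group. -/
def gen (G : Type) [Group G] [Finite G] : Formation where
  mem := fun X _ => InForm G X
  finite := fun X _ h => h (ofHom (fun Y _ => Finite Y) (fun _ _ h => h)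
      (fun _ _ _ _ f hf _ => Finite.of_surjective f hf)
      (fun _ _ _ _ _ _ _ _ _ _ => inferInstance)) ‹Finite G›
  iso := fun _ _ _ _ e h F hF => F.iso _ _ e (h F hF)
  quot := fun X _ N _ h F hF => F.quot X N (h F hF)
  inter := fun X _ _ N₁ N₂ _ _ h1 h2 F hF => F.inter X N₁ N₂ (h1 F hF) (h2 F hF)

theorem gen_mem_self (G : Type) [Group G] [Finite G] : (gen G).mem G := fun _ h => h

theorem gen_sub (G : Type) [Group G] [Finite G] (F : Formation) (h : F.mem G) :
    (gen G).Sub F := fun _ _ hX => hX F h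

end Formation

theorem InForm.trans {G X Y : Type} [Group G] [Group X] [Group Y] (h1 : InForm G X)
    (h2 : InForm X Y) : InForm G Y := fun F hF => h2 F (h1 F hF)

theorem InForm.refl (G : Type) [Group G] : InForm G G := fun _ h => h

theorem InForm.of_surjective {G X Y : Type} [Group G] [Group X] [Group Y] (h1 : InForm G X)
    (f : X →* Y) (hf : Function.Surjective f) : InForm G Y :=
  fun F hF => F.mem_of_surjective f hf (h1 F hF)

/-- Reformulation: all subformations are closed under normal subgroups iff every normal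
subgroup of a member lies in the formation generated by that member. -/
theorem all_sub_normallyClosed_iff (F : Formation) :
    (∀ H : Formation, H.Sub F → H.NormallyClosed) ↔
      ∀ (G : Type) [Group G] (N : Subgroup G), N.Normal → F.mem G → InForm G N := by
  constructor
  · intro h G _ N hN hG
    have := F.finite G hG
    exact h (Formation.gen G) (Formation.gen_sub G F hG) G N hN (Formation.gen_mem_self G)
  · intro h H hH G _ N hN hG
    exact h G N hN (hH G hG) H hG

end Pool.Agent.H69
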