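import Pool.Agent.Lib.H69.Formation.Suff3

/-!
Subdirect subgroups of powers avoiding constant central tuples, and products of quasisimple
groups.
-/

namespace Pool.Agent.H69

open Subgroup
open scoped commutatorElement

theorem SubdirectAvoids.of_index {S : Type} [Group S] {A : Subgroup S} {ι : Type} [Finite ι]
    (Y : Subgroup (ι → S)) (h1 : ∀ i s, ∃ y ∈ Y, y i = s)
    (h2 : ∀ a ∈ A, (fun _ => a) ∈ Y → a = 1) : SubdirectAvoids S A := by
  obtain ⟨n, ⟨e⟩⟩ := Finite.exists_equiv_fin ι
  let f : (Fin n → S) →* (ι → S) :=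
    { toFun := fun y i => y (e i)
      map_one' := rfl
      map_mul' := fun _ _ => rfl }
  refine ⟨n, Y.comap f, ?_, ?_⟩
  · intro i s
    obtain ⟨y, hy, hys⟩ := h1 (e.symm i) s
    refine ⟨fun j => y (e.symm j), ?_, hys⟩
    rw [mem_comap]
    have e1 : f (fun j => y (e.symm j)) = y := by
      funext k
      change y (e.symm (e k)) = y k
      rw [e.symm_apply_apply]
    rw [e1]
    exact hy
  · intro a ha hY
    exact h2 a ha hY

/-- Formation of all images of groups that are subdirect over copies of `G`. -/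
def qr (G : Type) [Group G] : Formation :=
  Formation.ofHom (fun X _ => Finite X ∧ ∃ (ι : Type) (_ : Finite ι) (Y : Type) (_ : Group Y)
      (_ : Finite Y) (ψ : ι → Y →* G) (θ : Y →* X), (∀ i, Function.Surjective (ψ i)) ∧
      Function.Surjective θ ∧ ∀ y, (∀ i, ψ i y = 1) → θ y = 1)
    (fun _ _ h => h.1)
    (by
      rintro A B _ _ f hf ⟨hA, ι, h1, Y, h2, h3, ψ, θ, h4, h5, h6⟩
      refine ⟨Finite.of_surjective f hf, ι, h1, Y, h2, h3, ψ, f.comp θ, h4, hf.comp h5, ?_⟩
      intro y hy
      change f (θ y) = 1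
      rw [h6 y hy, map_one])
    (by
      rintro X _ _ N₁ N₂ _ _ h12 ⟨_, ι, h1, Y, h2, h3, ψ, θ, h4, h5, h6⟩
        ⟨_, ι', h1', Y', h2', h3', ψ', θ', h4', h5', h6'⟩
      refine ⟨inferInstance, ?_⟩
      let Z : Subgroup (Y × Y' × X) :=
        { carrier := {q | θ q.1 = QuotientGroup.mk' N₁ q.2.2 ∧
            θ' q.2.1 = QuotientGroup.mk' N₂ q.2.2}
          one_mem' := by
            refine ⟨?_, ?_⟩
            · change θ 1 = QuotientGroup.mk' N₁ 1
              rw [map_one, map_one]
            · change θ' 1 = QuotientGroup.mk' N₂ 1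
              rw [map_one, map_one]
          mul_mem' := by
            rintro ⟨a, b, c⟩ ⟨a', b', c'⟩ ⟨e1, e2⟩ ⟨e3, e4⟩
            refine ⟨?_, ?_⟩
            · change θ (a * a') = QuotientGroup.mk' N₁ (c * c')
              rw [map_mul, map_mul]
              exact congrArg₂ (· * ·) e1 e3
            · change θ' (b * b') = QuotientGroup.mk' N₂ (c * c')
              rw [map_mul, map_mul]
              exact congrArg₂ (· * ·) e2 e4
          inv_mem' := by
            rintro ⟨a, b, c⟩ ⟨e1, e2⟩
            refine ⟨?_, ?_⟩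
            · change θ a⁻¹ = QuotientGroup.mk' N₁ c⁻¹
              rw [map_inv, map_inv]
              exact congrArg (·⁻¹) e1
            · change θ' b⁻¹ = QuotientGroup.mk' N₂ c⁻¹
              rw [map_inv, map_inv]
              exact congrArg (·⁻¹) e2 }
      let p1 : Z →* Y := (MonoidHom.fst Y (Y' × X)).comp Z.subtype
      let p2 : Z →* Y' := (MonoidHom.fst Y' X).comp ((MonoidHom.snd Y (Y' × X)).comp Z.subtype)
      let p3 : Z →* X := (MonoidHom.snd Y' X).comp ((MonoidHom.snd Y (Y' × X)).comp Z.subtype)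
      have s1 : Function.Surjective p1 := by
        intro y
        obtain ⟨x, hx⟩ := QuotientGroup.mk'_surjective N₁ (θ y)
        obtain ⟨y', hy'⟩ := h5' (QuotientGroup.mk' N₂ x)
        exact ⟨⟨(y, y', x), hx.symm, hy'⟩, rfl⟩
      have s2 : Function.Surjective p2 := by
        intro y'
        obtain ⟨x, hx⟩ := QuotientGroup.mk'_surjective N₂ (θ' y')
        obtain ⟨y, hy⟩ := h5 (QuotientGroup.mk' N₁ x)
        exact ⟨⟨(y, y', x), hy, hx.symm⟩, rfl⟩
      have s3 : Function.Surjective p3 := by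
        intro x
        obtain ⟨y, hy⟩ := h5 (QuotientGroup.mk' N₁ x)
        obtain ⟨y', hy'⟩ := h5' (QuotientGroup.mk' N₂ x)
        exact ⟨⟨(y, y', x), hy, hy'⟩, rfl⟩
      refine ⟨ι ⊕ ι', inferInstance, Z, inferInstance, inferInstance,
        fun i => Sum.elim (fun i => (ψ i).comp p1) (fun i => (ψ' i).comp p2) i, p3, ?_, s3, ?_⟩
      · rintro (i | i)
        · exact (h4 i).comp s1
        · exact (h4' i).comp s2
      · rintro ⟨⟨y, y', x⟩, e1, e2⟩ hq
        have f1 : θ y = 1 := h6 y (fun i => hq (Sum.inl i))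
        have f2 : θ' y' = 1 := h6' y' (fun i => hq (Sum.inr i))
        change θ y = QuotientGroup.mk' N₁ x at e1
        change θ' y' = QuotientGroup.mk' N₂ x at e2
        rw [f1] at e1
        rw [f2] at e2
        have g1 : x ∈ N₁ := (QuotientGroup.eq_one_iff x).mp e1.symm
        have g2 : x ∈ N₂ := (QuotientGroup.eq_one_iff x).mp e2.symm
        have : x ∈ N₁ ⊓ N₂ := ⟨g1, g2⟩
        rw [h12, mem_bot] at this
        exact this)

theorem qr_of_inForm {G X : Type} [Group G] [Finite G] [Group X] (h : InForm G X) :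
    Finite X ∧ ∃ (ι : Type) (_ : Finite ι) (Y : Type) (_ : Group Y)
      (_ : Finite Y) (ψ : ι → Y →* G) (θ : Y →* X), (∀ i, Function.Surjective (ψ i)) ∧
      Function.Surjective θ ∧ ∀ y, (∀ i, ψ i y = 1) → θ y = 1 := by
  have h0 : (qr G).mem G := by
    refine ⟨inferInstance, Unit, inferInstance, G, inferInstance, inferInstance,
      fun _ => MonoidHom.id G, MonoidHom.id G, fun _ x => ⟨x, rfl⟩, fun x => ⟨x, rfl⟩, ?_⟩
    intro y hy
    exact hy ()
  exact h (qr G) h0

theorem inForm_of_qr {G X : Type} [Group G] [Group X] {ι : Type} {Y : Type}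
    [Group Y] [Finite Y] (ψ : ι → Y →* G) (θ : Y →* X) (h1 : ∀ i, Function.Surjective (ψ i))
    (h2 : Function.Surjective θ) (h3 : ∀ y, (∀ i, ψ i y = 1) → θ y = 1) : InForm G X := by
  intro F hF
  obtain ⟨L, hLn, hLF, hL⟩ := F.exists_residual hF Y
  have h4 : L ≤ θ.ker := by
    intro y hy
    apply h3
    intro i
    exact (hL (ψ i).ker inferInstance
      (F.iso _ _ (QuotientGroup.quotientKerEquivOfSurjective (ψ i) (h1 i)).symm hF)) hy
  exact F.mem_of_surjective (QuotientGroup.lift L θ h4)
    (QuotientGroup.lift_surjective_of_surjective L θ h2 h4) hLF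

theorem nextB_top {G : Type} [Group G] (x : G × G) : x ∈ nextB (⊤ : Subgroup G) := trivial

/-- Necessity of `SubdirectAvoids`. -/
theorem subdirectAvoids_of_prop0 {F : Formation} (hF : Prop0 F) {S : Type} [Group S]
    (hS : F.mem S) (A : Subgroup S) (hA : A ≤ center S) : SubdirectAvoids S A := by
  have hfin := F.finite S hS
  have hDn : (diagSub (⊤ : Subgroup S) (center S)).Normal := diagSub_normal _ _ (by
    intro v _ c hc
    exact mem_center_iff.mp hc v)
  set D := diagSub (⊤ : Subgroup S) (center S) with hD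
  have hQF : F.mem (nextB (⊤ : Subgroup S) ⧸ D) := F.quot _ _ (nextB_mem F hS ⊤)
  let π := QuotientGroup.mk' D
  have hπ : ∀ y, π y = 1 ↔ y ∈ D := by
    intro y
    change QuotientGroup.mk' D y = 1 ↔ _
    rw [QuotientGroup.mk'_apply, QuotientGroup.eq_one_iff]
  have hπs : Function.Surjective π := QuotientGroup.mk'_surjective _
  let ι₁ : S →* (nextB (⊤ : Subgroup S) ⧸ D) :=
    π.comp
      { toFun := fun m => ⟨(m, 1), nextB_top _⟩
        map_one' := rfl
        map_mul' := fun x y => Subtype.ext (Prod.ext rfl (mul_one 1).symm) }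
  have hι : Function.Injective ι₁ := by
    rw [← MonoidHom.ker_eq_bot_iff, eq_bot_iff]
    intro m hm
    rw [MonoidHom.mem_ker] at hm
    change π _ = 1 at hm
    rw [hπ] at hm
    have h2 : (1 : S) = m := hm.2
    exact h2.symm
  have hn : ι₁.range.Normal := by
    constructor
    rintro _ ⟨t, rfl⟩ g
    obtain ⟨y, rfl⟩ := hπs g
    refine ⟨y.1.1 * t * (y.1.1)⁻¹, ?_⟩
    change π _ = π y * π _ * (π y)⁻¹
    rw [← map_mul, ← map_inv, ← map_mul]
    congr 1
    apply Subtype.ext
    refine Prod.ext rfl ?_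
    change (1 : S) = y.1.2 * 1 * (y.1.2)⁻¹
    group
  have hfinQ : Finite (nextB (⊤ : Subgroup S) ⧸ D) := inferInstance
  have hSQ : InForm (nextB (⊤ : Subgroup S) ⧸ D) S :=
    (hF _ ι₁.range hn hQF).of_surjective (MonoidHom.ofInjective hι).symm.toMonoidHom
      (MonoidHom.ofInjective hι).symm.surjective
  obtain ⟨-, ι, hι', Y, hY, hYf, ψ, θ, h1, h2, h3⟩ := qr_of_inForm hSQ
  -- lifts
  let T : Subgroup (Y × (ι → S × S)) :=
    { carrier := {q | ∀ i, π ⟨q.2 i, nextB_top _⟩ = ψ i q.1}
      one_mem' := by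
        intro i
        change π 1 = ψ i 1
        rw [map_one, map_one]
      mul_mem' := by
        intro a b ha hb i
        change π (⟨a.2 i, nextB_top _⟩ * ⟨b.2 i, nextB_top _⟩) = ψ i (a.1 * b.1)
        rw [map_mul, map_mul, ha i, hb i]
      inv_mem' := by
        intro a ha i
        change π (⟨a.2 i, nextB_top _⟩)⁻¹ = ψ i (a.1)⁻¹
        rw [map_inv, map_inv, ha i] }
  have hlift : ∀ y, ∀ i, ∃ u : S × S, π ⟨u, nextB_top _⟩ = ψ i y := by
    intro y i
    obtain ⟨u, hu⟩ := hπs (ψ i y)
    exact ⟨u.1, hu⟩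
  -- evaluations
  let ev : Option (ι × Bool) → T →* S := fun o =>
    match o with
    | none => θ.comp ((MonoidHom.fst Y (ι → S × S)).comp T.subtype)
    | some (i, true) => (MonoidHom.fst S S).comp ((Pi.evalMonoidHom (fun _ => S × S) i).comp
        ((MonoidHom.snd Y (ι → S × S)).comp T.subtype))
    | some (i, false) => (MonoidHom.snd S S).comp ((Pi.evalMonoidHom (fun _ => S × S) i).comp
        ((MonoidHom.snd Y (ι → S × S)).comp T.subtype))
  let E : T →* (Option (ι × Bool) → S) := MonoidHom.pi ev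
  refine SubdirectAvoids.of_index E.range ?_ ?_
  · -- surjectivity of each evaluation
    have key : ∀ i (u : S × S), ∃ t : T, t.1.2 i = u := by
      classical
      intro i u
      obtain ⟨y, hy⟩ := h1 i (π ⟨u, nextB_top _⟩)
      choose f hf using fun j => hlift y j
      refine ⟨⟨(y, Function.update f i u), ?_⟩, ?_⟩
      · intro j
        change π ⟨Function.update f i u j, _⟩ = ψ j y
        by_cases hji : j = i
        · subst hji
          simp only [Function.update_self]
          exact hy.symm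
        · simp only [Function.update_of_ne hji]
          exact hf j
      · change Function.update f i u i = u
        rw [Function.update_self]
    intro o s
    rcases o with _ | ⟨i, _ | _⟩
    · obtain ⟨y, hy⟩ := h2 s
      choose f hf using fun j => hlift y j
      exact ⟨E ⟨(y, f), hf⟩, ⟨_, rfl⟩, hy⟩
    · obtain ⟨t, ht⟩ := key i (1, s)
      refine ⟨E t, ⟨_, rfl⟩, ?_⟩
      change (t.1.2 i).2 = s
      rw [ht]
    · obtain ⟨t, ht⟩ := key i (s, 1)
      refine ⟨E t, ⟨_, rfl⟩, ?_⟩
      change (t.1.2 i).1 = s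
      rw [ht]
  · rintro a ha ⟨t, ht⟩
    have e0 : θ t.1.1 = a := congrFun ht none
    have e1 : ∀ i, t.1.2 i = (a, a) := by
      intro i
      exact Prod.ext (congrFun ht (some (i, true))) (congrFun ht (some (i, false)))
    have e2 : ∀ i, ψ i t.1.1 = 1 := by
      intro i
      rw [← t.2 i, hπ]
      refine ⟨?_, ?_⟩
      · change (t.1.2 i).1 ∈ center S
        rw [e1]
        exact hA ha
      · change (t.1.2 i).2 = (t.1.2 i).1
        rw [e1]
    rw [← e0]
    exact h3 _ e2

end Pool.Agent.H69
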