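import Pool.Agent.Lib.H69.Formation.Split

/-!
Central sections of prime order give central elements of prime order.
-/

namespace Pool.Agent.H69

open Subgroup
open scoped commutatorElement

/-- all abelian minimal normal subgroups are central -/
def CentralAbelian (X : Type) [Group X] : Prop :=
  ∀ A : Subgroup X, IsMinNormal A → ⁅A, A⁆ = ⊥ → A ≤ center X

/-- The splitting property. -/
def SplitProp (X : Type) [Group X] : Prop :=
  ∀ N U : Subgroup X, IsMinNormal N → ⁅N, N⁆ ≠ ⊥ → U.Normal → N ≤ U →
    (N.subgroupOf U).index.Prime → U ≤ N ⊔ centralizer (N : Set X)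

theorem mem_center_of_comm {X : Type} [Group X] {z : X} (h : ∀ x : X, ⁅z, x⁆ = 1) :
    z ∈ center X := by
  rw [mem_center_iff]
  intro g
  have := h g
  rw [commutatorElement_eq_one_iff_mul_comm] at this
  exact this.symm

theorem exists_central_of_CP {F : Formation} {n : ℕ}
    (hsplit : ∀ (X : Type) [Group X], F.mem X → Nat.card X < n → SplitProp X)
    (hcen : ∀ (X : Type) [Group X], F.mem X → Nat.card X < n → CentralAbelian X)
    {p : ℕ} (hp : p.Prime) (X : Type) [Group X] (hX : F.mem X) (hcard : Nat.card X < n)
    (h : CP p X) : ∃ z ∈ center X, z ≠ 1 ∧ z ^ p = 1 := by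
  induction hk : Nat.card X using Nat.strong_induction_on generalizing X with
  | _ k ih =>
  have hfin := F.finite X hX
  have hpf := Fact.mk hp
  obtain ⟨M, hM, l, h1, h2, h3⟩ := h
  have hne : (⊤ : Subgroup X) ≠ ⊥ := by
    intro h
    apply h1
    have : l ∈ (⊤ : Subgroup X) := trivial
    rw [h, mem_bot] at this
    rw [this]
    exact one_mem M
  obtain ⟨N, hN, -⟩ := exists_minNormal (⊤ : Subgroup X) inferInstance hne
  have hNn := hN.1
  by_cases hl : l ∈ M ⊔ N
  · obtain ⟨v, hv, f1, f2, f3⟩ := CP.shift hM h1 h2 h3 N hl
    have hMN : M ⊓ N = ⊥ := by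
      by_contra h0
      have := hN.2.2 _ inferInstance inf_le_right h0
      exact f1 ((inf_eq_right.mp this) hv)
    refine ⟨v, mem_center_of_comm fun x => ?_, ?_, ?_⟩
    · have : ⁅v, x⁆ ∈ M ⊓ N := ⟨f3 x, by
        have e : ⁅v, x⁆ = v * (x * v⁻¹ * x⁻¹) := by rw [commutatorElement_def]; group
        rw [e]
        exact mul_mem hv (hNn.conj_mem _ (inv_mem hv) x)⟩
      rwa [hMN, mem_bot] at this
    · rintro rfl
      exact f1 (one_mem M)
    · have : v ^ p ∈ M ⊓ N := ⟨f2, pow_mem hv p⟩
      rwa [hMN, mem_bot] at this
  · -- pass to the quotient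
    have hCPq : CP p (X ⧸ N) := CP.quot hM h2 h3 N hl
    have hcq : Nat.card (X ⧸ N) < k := by
      rw [← hk]
      have e := Subgroup.card_eq_card_quotient_mul_card_subgroup N
      have h4 : 1 < Nat.card N := (Subgroup.one_lt_card_iff_ne_bot N).mpr hN.2.1
      have h5 : 0 < Nat.card (X ⧸ N) := Nat.card_pos
      rw [e]
      exact (Nat.lt_mul_iff_one_lt_right h5).mpr h4
    obtain ⟨zb, hz1, hz2, hz3⟩ := ih _ hcq (X ⧸ N) (F.quot X N hX)
      (lt_trans (hk ▸ hcq) hcard) hCPq rfl
    obtain ⟨z, rfl⟩ := QuotientGroup.mk'_surjective N zb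
    have hzN : z ∉ N := by
      intro h
      apply hz2
      rw [QuotientGroup.mk'_apply]
      exact (QuotientGroup.eq_one_iff z).mpr h
    have hzp : z ^ p ∈ N := by
      rw [← map_pow, QuotientGroup.mk'_apply] at hz3
      exact (QuotientGroup.eq_one_iff _).mp hz3
    have hzc : ∀ x, ⁅z, x⁆ ∈ N := by
      intro x
      rw [← QuotientGroup.eq_one_iff, ← QuotientGroup.mk'_apply, map_commutatorElement,
        commutatorElement_eq_one_iff_mul_comm]
      exact (mem_center_iff.mp hz1 _).symm
    by_cases hab : ⁅N, N⁆ = ⊥
    · have hNc : N ≤ center X := hcen X hX hcard N hN hab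
      by_cases hcc : ∀ x : X, ⁅z, x⁆ = 1
      · -- `z` is central
        have hzo : p ∣ orderOf z := by
          have e1 : orderOf (QuotientGroup.mk' N z) = p := orderOf_eq_prime hz3 hz2
          rw [← e1]
          exact orderOf_map_dvd _ _
        have ho : 0 < orderOf z := orderOf_pos z
        obtain ⟨m, hm⟩ := hzo
        have hm0 : 0 < m := by
          rcases Nat.eq_zero_or_pos m with h | h
          · rw [h, mul_zero] at hm; omega
          · exact h
        refine ⟨z ^ m, pow_mem (mem_center_of_comm hcc) m, ?_, ?_⟩
        · intro h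
          have := orderOf_dvd_of_pow_eq_one h
          rw [hm] at this
          have h6 := Nat.le_of_dvd hm0 this
          have h7 := hp.two_le
          nlinarith
        · rw [← pow_mul, mul_comm, ← hm, pow_orderOf_eq_one]
      · push Not at hcc
        obtain ⟨x, hx⟩ := hcc
        refine ⟨⁅z, x⁆, hNc (hzc x), hx, ?_⟩
        -- `[z, x] ^ p = [z ^ p, x] = 1`
        have hcomm : ∀ m : ℕ, ⁅z ^ m, x⁆ = ⁅z, x⁆ ^ m := by
          intro m
          induction m with
          | zero => simp
          | succ m ihm =>
            have hz' := mem_center_iff.mp (hNc (hzc x))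
            rw [pow_succ', commutatorElement_mul_left_eq_conj_mul, ihm, pow_succ]
            congr 1
            have : (z * ⁅z, x⁆ ^ m) = ⁅z, x⁆ ^ m * z := by
              have h8 := mem_center_iff.mp (pow_mem (hNc (hzc x)) m) z
              exact h8
            rw [this, mul_assoc, mul_inv_cancel, mul_one]
        rw [← hcomm p, commutatorElement_eq_one_iff_mul_comm]
        exact (mem_center_iff.mp (hNc hzp) x).symm
    · -- nonabelian case
      let U : Subgroup X := (zpowers (QuotientGroup.mk' N z)).comap (QuotientGroup.mk' N)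
      have hNU : N ≤ U := by
        intro x hx
        have e : QuotientGroup.mk' N x = 1 := (QuotientGroup.eq_one_iff x).mpr hx
        rw [mem_comap, e]
        exact one_mem _
      have hzn : (zpowers (QuotientGroup.mk' N z)).Normal := by
        constructor
        intro a ha g
        have hac : a ∈ center (X ⧸ N) :=
          (zpowers_le.mpr hz1) ha
        rw [mem_center_iff.mp hac g, mul_assoc, mul_inv_cancel, mul_one]
        exact ha
      have hUn : U.Normal := hzn.comap _
      have hidx : (N.subgroupOf U).index = p := by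
        have e1 : orderOf (QuotientGroup.mk' N z) = p := orderOf_eq_prime hz3 hz2
        have e2 : N.relIndex U = p := by
          have e3 : N = (⊥ : Subgroup (X ⧸ N)).comap (QuotientGroup.mk' N) := by
            rw [MonoidHom.comap_bot, QuotientGroup.ker_mk']
          have e4 : N.relIndex U = (⊥ : Subgroup (X ⧸ N)).relIndex
              (zpowers (QuotientGroup.mk' N z)) := by
            conv_lhs => rw [e3]
            rw [Subgroup.relIndex_comap,
              Subgroup.map_comap_eq_self_of_surjective (QuotientGroup.mk'_surjective N)]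
          rw [e4, Subgroup.relIndex_bot_left, Nat.card_zpowers, e1]
        exact e2
      have hU := hsplit X hX hcard N U hN hab hUn hNU (by rw [hidx]; exact hp)
      have hzU : z ∈ U := by
        rw [mem_comap]
        exact mem_zpowers _
      have h5 := hU hzU
      rw [mem_sup_centralizer] at h5
      obtain ⟨m, hm, c, hc, hmc⟩ := h5
      have hCn : (centralizer (N : Set X)).Normal := inferInstance
      have hNC := hN.inf_centralizer hab
      have hmk : QuotientGroup.mk' N z = QuotientGroup.mk' N c := by
        rw [← hmc, map_mul, QuotientGroup.mk'_apply, (QuotientGroup.eq_one_iff m).mpr hm, one_mul]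
      refine ⟨c, mem_center_of_comm fun x => ?_, ?_, ?_⟩
      · have : ⁅c, x⁆ ∈ N ⊓ centralizer (N : Set X) := by
          refine ⟨?_, ?_⟩
          · have h6 := hzc x
            change ⁅c, x⁆ ∈ N
            rw [← QuotientGroup.eq_one_iff, ← QuotientGroup.mk'_apply, map_commutatorElement,
              hmk, ← map_commutatorElement, QuotientGroup.mk'_apply,
              QuotientGroup.eq_one_iff] at h6
            exact h6
          · have e : ⁅c, x⁆ = c * (x * c⁻¹ * x⁻¹) := by rw [commutatorElement_def]; group
            rw [e]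
            exact mul_mem hc (hCn.conj_mem _ (inv_mem hc) x)
        rwa [hNC, mem_bot] at this
      · rintro rfl
        apply hz2
        rw [hmk, map_one]
      · have : c ^ p ∈ N ⊓ centralizer (N : Set X) := by
          refine ⟨?_, pow_mem hc p⟩
          change c ^ p ∈ N
          rw [← QuotientGroup.eq_one_iff, ← QuotientGroup.mk'_apply, map_pow, ← hmk]
          exact hz3
        rwa [hNC, mem_bot] at this

end Pool.Agent.H69
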