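import Pool.Agent.Lib.H69.Formation.Defs

/-!
Elementary facts about minimal normal subgroups of finite groups.
-/

namespace Pool.Agent.H69

open Subgroup
open scoped commutatorElement

variable {X : Type} [Group X]

theorem exists_minNormal [Finite X] (B : Subgroup X) (hB : B.Normal) (hne : B ≠ ⊥) :
    ∃ A : Subgroup X, IsMinNormal A ∧ A ≤ B := by
  let S : Set (Subgroup X) := {L | L.Normal ∧ L ≠ ⊥ ∧ L ≤ B}
  obtain ⟨A, hA⟩ := (Set.toFinite S).exists_minimal ⟨B, hB, hne, le_rfl⟩
  obtain ⟨h1, h2, h3⟩ := hA.prop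
  refine ⟨A, ⟨h1, h2, ?_⟩, h3⟩
  intro C hC hCA hC0
  exact le_antisymm hCA (hA.le_of_le ⟨hC, hC0, hCA.trans h3⟩ hCA)

/-- `K` is a subgroup of `N` normalised by `N`. -/
def RelN (N K : Subgroup X) : Prop := K ≤ N ∧ ∀ n ∈ N, ∀ k ∈ K, n * k * n⁻¹ ∈ K

theorem RelN.of_normal {N K : Subgroup X} (h : K ≤ N) (hK : K.Normal) : RelN N K :=
  ⟨h, fun n _ k hk => hK.conj_mem k hk n⟩

/-- Two subgroups normalising each other with trivial intersection commute. -/
theorem le_centralizer_of_inf_eq_bot {A B : Subgroup X}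
    (h1 : ∀ b ∈ B, ∀ a ∈ A, b * a * b⁻¹ ∈ A) (h2 : ∀ a ∈ A, ∀ b ∈ B, a * b * a⁻¹ ∈ B)
    (h : A ⊓ B = ⊥) : A ≤ centralizer (B : Set X) := by
  intro a ha
  rw [mem_centralizer_iff_commutator_eq_one]
  intro b hb
  have e1 : ⁅b, a⁆ ∈ A := by
    rw [commutatorElement_def]
    exact mul_mem (h1 b hb a ha) (inv_mem ha)
  have e2 : ⁅b, a⁆ ∈ B := by
    have := h2 a ha b⁻¹ (inv_mem hb)
    rw [commutatorElement_def]
    have e : b * a * b⁻¹ * a⁻¹ = b * (a * b⁻¹ * a⁻¹) := by group
    rw [e]
    exact mul_mem hb this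
  have : ⁅b, a⁆ ∈ A ⊓ B := ⟨e1, e2⟩
  rwa [h, mem_bot] at this

theorem comm_bot_iff (A B : Subgroup X) : ⁅A, B⁆ = ⊥ ↔ ∀ a ∈ A, ∀ b ∈ B, a * b = b * a := by
  rw [commutator_eq_bot_iff_le_centralizer]
  constructor
  · intro h a ha b hb
    exact ((mem_centralizer_iff.mp (h ha)) b hb).symm
  · intro h a ha
    rw [mem_centralizer_iff]
    intro b hb
    exact (h a ha b hb).symm

/-- Conjugate of a subgroup. -/
def cj (x : X) (L : Subgroup X) : Subgroup X := L.map (MulAut.conj x).toMonoidHom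

theorem mem_cj (x y : X) (L : Subgroup X) : y ∈ cj x L ↔ x⁻¹ * y * x ∈ L := by
  unfold cj
  constructor
  · rintro ⟨z, hz, rfl⟩
    have : x⁻¹ * ((MulAut.conj x).toMonoidHom z) * x = z := by
      simp only [MulEquiv.toMonoidHom_eq_coe, MonoidHom.coe_coe, MulAut.conj_apply]
      group
    rw [this]
    exact hz
  · intro h
    refine ⟨_, h, ?_⟩
    simp only [MulEquiv.toMonoidHom_eq_coe, MonoidHom.coe_coe, MulAut.conj_apply]
    group

theorem exists_covering [Finite X] {N : Subgroup X} (hN : IsMinNormal N) :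
    ∃ L : Subgroup X, (∀ x, RelN N (cj x L)) ∧ (⨆ x, cj x L) = N ∧ L ≠ ⊥ ∧
      ∀ x, ∀ T, RelN N T → T ≤ cj x L → T ≠ ⊥ → cj x L ≤ T := by
  obtain ⟨hNn, hN0, hNmin⟩ := hN
  let S : Set (Subgroup X) := {L | RelN N L ∧ L ≠ ⊥}
  obtain ⟨L, hL⟩ := (Set.toFinite S).exists_minimal ⟨N, RelN.of_normal le_rfl hNn, hN0⟩
  obtain ⟨⟨hLN, hLn⟩, hL0⟩ := hL.prop
  have hrel : ∀ T, RelN N T → ∀ x, RelN N (cj x T) := by
    rintro T ⟨h1, h2⟩ x
    refine ⟨?_, ?_⟩
    · intro y hy
      rw [mem_cj] at hy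
      have := hNn.conj_mem _ (h1 hy) x
      have e : x * (x⁻¹ * y * x) * x⁻¹ = y := by group
      rwa [e] at this
    · intro n hn k hk
      rw [mem_cj] at hk ⊢
      have h3 := h2 (x⁻¹ * n * x) (by
        have := hNn.conj_mem n hn x⁻¹
        rwa [inv_inv] at this) _ hk
      have e : x⁻¹ * n * x * (x⁻¹ * k * x) * (x⁻¹ * n * x)⁻¹ = x⁻¹ * (n * k * n⁻¹) * x := by
        group
      rwa [e] at h3
  have hrelL := hrel L ⟨hLN, hLn⟩
  refine ⟨L, hrelL, ?_, hL0, ?_⟩
  · have hn : (⨆ x, cj x L).Normal := by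
      constructor
      intro a ha g
      induction ha using Subgroup.iSup_induction' with
      | hp i y hy =>
        refine Subgroup.mem_iSup_of_mem (g * i) ?_
        rw [mem_cj] at hy ⊢
        have e : (g * i)⁻¹ * (g * y * g⁻¹) * (g * i) = i⁻¹ * y * i := by group
        rwa [e]
      | h1 => simp [one_mem]
      | hmul a b _ _ ha hb =>
        have e : g * (a * b) * g⁻¹ = (g * a * g⁻¹) * (g * b * g⁻¹) := by group
        rw [e]
        exact mul_mem ha hb
    apply hNmin _ hn
    · exact iSup_le fun x => (hrelL x).1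
    · intro h
      rw [iSup_eq_bot] at h
      apply hL0
      have h1 := h 1
      rw [eq_bot_iff] at h1 ⊢
      intro y hy
      apply h1
      rw [mem_cj]
      simpa using hy
  · intro x T hT hTL hT0 
    have h1 : cj x⁻¹ T ≤ L := by
      intro y hy
      rw [mem_cj] at hy
      have := hTL hy
      rw [mem_cj] at this
      have e : x⁻¹ * (x⁻¹⁻¹ * y * x⁻¹) * x = y := by group
      rwa [e] at this
    have h2 : cj x⁻¹ T ≠ ⊥ := by
      intro h
      apply hT0
      rw [eq_bot_iff] at h ⊢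
      intro y hy
      have : x⁻¹ * y * x ∈ cj x⁻¹ T := by
        rw [mem_cj]
        have e : x⁻¹⁻¹ * (x⁻¹ * y * x) * x⁻¹ = y := by group
        rwa [e]
      have h3 := h this
      rw [mem_bot] at h3 ⊢
      have e : y = x * (x⁻¹ * y * x) * x⁻¹ := by group
      rw [e, h3]
      group
    have h3 := hL.le_of_le ⟨hrel T hT x⁻¹, h2⟩ h1
    intro y hy
    rw [mem_cj] at hy
    have h4 := h3 hy
    rw [mem_cj] at h4
    have e : x⁻¹⁻¹ * (x⁻¹ * y * x) * x⁻¹ = y := by group
    rwa [e] at h4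

theorem RelN.inf {N A B : Subgroup X} (hA : RelN N A) (hB : RelN N B) : RelN N (A ⊓ B) :=
  ⟨inf_le_left.trans hA.1, fun n hn k hk => ⟨hA.2 n hn k hk.1, hB.2 n hn k hk.2⟩⟩

theorem RelN.comm_of_inf {N A B : Subgroup X} (hA : RelN N A) (hB : RelN N B)
    (h : A ⊓ B = ⊥) : A ≤ centralizer (B : Set X) :=
  le_centralizer_of_inf_eq_bot (fun b hb a ha => hA.2 b (hB.1 hb) a ha)
    (fun a ha b hb => hB.2 a (hA.1 ha) b hb) h

/-- In a minimal normal subgroup `N`, each subgroup `K` normalised by `N` has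
`N ≤ K C(K)`. -/
theorem IsMinNormal.le_sup_centralizer [Finite X] {N : Subgroup X} (hN : IsMinNormal N)
    {K : Subgroup X} (hK : RelN N K) : N ≤ K ⊔ centralizer (K : Set X) := by
  obtain ⟨L, hL, hsup, -, hmin⟩ := exists_covering hN
  rw [← hsup]
  refine iSup_le fun x => ?_
  by_cases h : cj x L ⊓ K = ⊥
  · exact ((hL x).comm_of_inf hK h).trans le_sup_right
  · exact ((hmin x _ ((hL x).inf hK) inf_le_left h).trans inf_le_right).trans le_sup_left

/-- In a nonabelian minimal normal subgroup `N`, each abelian subgroup normalised by `N`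
is trivial. -/
theorem IsMinNormal.abelian_eq_bot [Finite X] {N : Subgroup X} (hN : IsMinNormal N)
    (hna : ⁅N, N⁆ ≠ ⊥) {K : Subgroup X} (hK : RelN N K) (hab : ⁅K, K⁆ = ⊥) : K = ⊥ := by
  by_contra hK0
  apply hna
  obtain ⟨L, hL, hsup, hL0, hmin⟩ := exists_covering hN
  by_cases hex : ∃ x, cj x L ≤ K
  · obtain ⟨x, hx⟩ := hex
    -- every conjugate is abelian
    have hLab : ∀ y, ∀ a ∈ cj y L, ∀ b ∈ cj y L, a * b = b * a := by
      intro y a ha b hb
      rw [mem_cj] at ha hb
      rw [comm_bot_iff] at hab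
      have h1 : ∀ c ∈ L, x * c * x⁻¹ ∈ K := by
        intro c hc
        apply hx
        rw [mem_cj]
        have e : x⁻¹ * (x * c * x⁻¹) * x = c := by group
        rwa [e]
      have h2 := hab _ (h1 _ ha) _ (h1 _ hb)
      have e1 : x * (y⁻¹ * a * y) * x⁻¹ * (x * (y⁻¹ * b * y) * x⁻¹) =
        (x * y⁻¹) * (a * b) * (x * y⁻¹)⁻¹ := by group
      have e2 : x * (y⁻¹ * b * y) * x⁻¹ * (x * (y⁻¹ * a * y) * x⁻¹) =
        (x * y⁻¹) * (b * a) * (x * y⁻¹)⁻¹ := by group
      rw [e1, e2] at h2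
      exact mul_left_cancel (mul_right_cancel h2)
    have hcomm : ∀ y z, cj y L ≤ centralizer (cj z L : Set X) := by
      intro y z
      by_cases h : cj y L ⊓ cj z L = ⊥
      · exact (hL y).comm_of_inf (hL z) h
      · have h1 : cj y L ≤ cj z L :=
          (hmin y _ ((hL y).inf (hL z)) inf_le_left h).trans inf_le_right
        intro a ha
        rw [mem_centralizer_iff]
        intro b hb
        exact hLab z b hb a (h1 ha)
    rw [commutator_eq_bot_iff_le_centralizer, ← hsup]
    refine iSup_le fun y => ?_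
    rw [le_centralizer_iff]
    refine iSup_le fun z => ?_
    rw [le_centralizer_iff]
    exact hcomm y z
  · push Not at hex
    have h1 : N ≤ centralizer (K : Set X) := by
      rw [← hsup]
      refine iSup_le fun x => ?_
      by_cases h : cj x L ⊓ K = ⊥
      · exact (hL x).comm_of_inf hK h
      · exact absurd ((hmin x _ ((hL x).inf hK) inf_le_left h).trans inf_le_right) (hex x)
    have hNn := hN.1
    have h2 : N ⊓ centralizer (N : Set X) = N := by
      apply hN.2.2 _ inferInstance inf_le_left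
      intro h
      apply hK0
      rw [eq_bot_iff, ← h]
      exact le_inf hK.1 ((le_centralizer_iff).mp h1)
    rw [commutator_eq_bot_iff_le_centralizer]
    exact inf_eq_left.mp h2

theorem IsMinNormal.commutator_self {N : Subgroup X} (hN : IsMinNormal N)
    (hna : ⁅N, N⁆ ≠ ⊥) : ⁅N, N⁆ = N := by
  have := hN.1
  exact hN.2.2 _ inferInstance (commutator_le_left N N) hna

theorem IsMinNormal.inf_centralizer {N : Subgroup X} (hN : IsMinNormal N)
    (hna : ⁅N, N⁆ ≠ ⊥) : N ⊓ centralizer (N : Set X) = ⊥ := by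
  have := hN.1
  by_contra h
  have h2 := hN.2.2 _ inferInstance inf_le_left h
  apply hna
  rw [commutator_eq_bot_iff_le_centralizer]
  exact inf_eq_left.mp h2

/-- `A` is the unique minimal normal subgroup (monolith). -/
def IsMonolith (A : Subgroup X) : Prop :=
  A.Normal ∧ A ≠ ⊥ ∧ ∀ B : Subgroup X, B.Normal → B ≠ ⊥ → A ≤ B

theorem IsMonolith.minNormal {A : Subgroup X} (h : IsMonolith A) : IsMinNormal A :=
  ⟨h.1, h.2.1, fun B hB hBA hB0 => le_antisymm hBA (h.2.2 B hB hB0)⟩

/-- For a nonabelian minimal normal `K`, the image of `K` in `X / C(K)` is the monolith. -/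
theorem IsMinNormal.monolith_quotient {K : Subgroup X} (hK : IsMinNormal K)
    (hna : ⁅K, K⁆ ≠ ⊥) [hC : (centralizer (K : Set X)).Normal] :
    IsMonolith (K.map (QuotientGroup.mk' (centralizer (K : Set X)))) ∧
    ⁅K.map (QuotientGroup.mk' (centralizer (K : Set X))),
      K.map (QuotientGroup.mk' (centralizer (K : Set X)))⁆ =
      K.map (QuotientGroup.mk' (centralizer (K : Set X))) := by
  have hKn := hK.1
  refine ⟨⟨hKn.map _ (QuotientGroup.mk'_surjective _), ?_, ?_⟩, ?_⟩
  · intro h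
    rw [Subgroup.map_eq_bot_iff, QuotientGroup.ker_mk'] at h
    exact hna (commutator_eq_bot_iff_le_centralizer.mpr h)
  · intro B hB hB0
    have hBc : (B.comap (QuotientGroup.mk' (centralizer (K : Set X)))).Normal := hB.comap _
    have h1 : K ⊓ B.comap (QuotientGroup.mk' (centralizer (K : Set X))) ≠ ⊥ := by
      intro h
      have h2 : B.comap (QuotientGroup.mk' (centralizer (K : Set X))) ≤
          centralizer (K : Set X) := by
        rw [inf_comm] at h
        exact le_centralizer_of_inf_eq_bot (fun b _ a ha => hBc.conj_mem a ha b)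
          (fun a _ b hb => hKn.conj_mem b hb a) h
      apply hB0
      rw [eq_bot_iff]
      intro b hb
      obtain ⟨x, rfl⟩ := QuotientGroup.mk'_surjective _ b
      have : x ∈ centralizer (K : Set X) := h2 hb
      rw [mem_bot, QuotientGroup.mk'_apply, QuotientGroup.eq_one_iff]
      exact this
    have h2 := hK.2.2 _ inferInstance inf_le_left h1
    rw [Subgroup.map_le_iff_le_comap]
    exact inf_eq_left.mp h2
  · rw [← map_commutator, hK.commutator_self hna]

theorem index_map_quotient_centralizer (K : Subgroup X) [(centralizer (K : Set X)).Normal] :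
    (K.map (QuotientGroup.mk' (centralizer (K : Set X)))).index =
      (K ⊔ centralizer (K : Set X)).index := by
  rw [Subgroup.index_map, QuotientGroup.ker_mk', MonoidHom.range_eq_top.mpr
    (QuotientGroup.mk'_surjective _), index_top, mul_one]

/-- If `K C(K)` is everything for all minimal normal `K ≤ N`, the same holds for all
normal `K ≤ N`. -/
theorem sup_centralizer_eq_top [Finite X] (N : Subgroup X)
    (ha : ∀ B : Subgroup X, B.Normal → B ≤ N → ⁅B, B⁆ = ⊥ → B = ⊥)
    (h : ∀ K : Subgroup X, IsMinNormal K → K ≤ N → K ⊔ centralizer (K : Set X) = ⊤)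
    (L : Subgroup X) (hL : L.Normal) (hLN : L ≤ N) : L ⊔ centralizer (L : Set X) = ⊤ := by
  induction hn : Nat.card L using Nat.strong_induction_on generalizing L with
  | _ n ih =>
  by_cases hL0 : L = ⊥
  · rw [hL0]
    rw [eq_top_iff]
    intro x _
    apply (le_sup_right : centralizer ((⊥ : Subgroup X) : Set X) ≤ _)
    rw [mem_centralizer_iff]
    intro y hy
    rw [SetLike.mem_coe, mem_bot] at hy
    rw [hy, one_mul, mul_one]
  obtain ⟨K, hK, hKL⟩ := exists_minNormal L hL hL0
  have hKn := hK.1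
  have hKtop := h K hK (hKL.trans hLN)
  let M : Subgroup X := L ⊓ centralizer (K : Set X)
  have hM : M.Normal := inferInstance
  have hML : M < L := by
    refine lt_of_le_of_ne inf_le_left ?_
    intro hEq
    have h1 : K ≤ centralizer (K : Set X) := hKL.trans (inf_eq_left.mp hEq)
    exact hK.2.1 (ha K hKn (hKL.trans hLN) (commutator_eq_bot_iff_le_centralizer.mpr h1))
  have hcard : Nat.card M < n := by
    rw [← hn]
    exact Set.Finite.card_lt_card (Set.toFinite _) hML
  have hMtop := ih _ hcard M hM (hML.le.trans hLN) rfl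
  rw [eq_top_iff]
  intro u _
  have hu : u ∈ M ⊔ centralizer (M : Set X) := by rw [hMtop]; trivial
  rw [mem_sup_of_normal_left] at hu
  obtain ⟨k2, hk2, c2, hc2, rfl⟩ := hu
  have hc2' : c2 ∈ K ⊔ centralizer (K : Set X) := by rw [hKtop]; trivial
  rw [mem_sup_of_normal_left] at hc2'
  obtain ⟨k1, hk1, c1, hc1, rfl⟩ := hc2'
  -- `c1` centralises `L`
  have hk1M : k1 ∈ centralizer (M : Set X) := by
    rw [mem_centralizer_iff]
    intro m hm
    exact (mem_centralizer_iff.mp hm.2 k1 hk1).symm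
  have hc1M : c1 ∈ centralizer (M : Set X) := by
    have := mul_mem (inv_mem hk1M) hc2
    rwa [inv_mul_cancel_left] at this
  have hc1L : c1 ∈ centralizer (L : Set X) := by
    rw [mem_centralizer_iff]
    intro l hl
    have hl' : l ∈ K ⊔ centralizer (K : Set X) := by rw [hKtop]; trivial
    rw [mem_sup_of_normal_left] at hl'
    obtain ⟨k, hk, c, hc, rfl⟩ := hl'
    have hcL : c ∈ L := by
      have := mul_mem (inv_mem (hKL hk)) hl
      rwa [inv_mul_cancel_left] at this
    have e1 : k * c1 = c1 * k := mem_centralizer_iff.mp hc1 k hk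
    have e2 : c * c1 = c1 * c := mem_centralizer_iff.mp hc1M c ⟨hcL, hc⟩
    rw [mul_assoc, e2, ← mul_assoc, e1, mul_assoc]
  have : k2 * (k1 * c1) = (k2 * k1) * c1 := by group
  rw [this]
  exact mul_mem_sup (mul_mem hk2.1 (hKL hk1)) hc1L

end Pool.Agent.H69
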