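import Pool.Agent.Lib.H69.Formation.Basic
import Pool.Agent.Lib.H69.Formation.MinNormal

/-!
Three auxiliary formations.
-/

namespace Pool.Agent.H69

open Subgroup
open scoped commutatorElement

/-- Some quotient of `X` has a central element `l ≠ 1` with `l ^ p = 1`. -/
def CP (p : ℕ) (X : Type) [Group X] : Prop :=
  ∃ M : Subgroup X, M.Normal ∧ ∃ l, l ∉ M ∧ l ^ p ∈ M ∧ ∀ x, ⁅l, x⁆ ∈ M

theorem CP.of_surjective {p : ℕ} {G H : Type} [Group G] [Group H] (f : G →* H)
    (hf : Function.Surjective f) (h : CP p H) : CP p G := by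
  obtain ⟨M, hM, l, h1, h2, h3⟩ := h
  obtain ⟨l, rfl⟩ := hf l
  refine ⟨M.comap f, hM.comap f, l, h1, ?_, ?_⟩
  · rw [mem_comap, map_pow]; exact h2
  · intro x
    rw [mem_comap, map_commutatorElement]
    exact h3 _

theorem CP.quot {p : ℕ} {G : Type} [Group G] {M : Subgroup G} (hM : M.Normal) {l : G}
    (h2 : l ^ p ∈ M) (h3 : ∀ x, ⁅l, x⁆ ∈ M) (N : Subgroup G) [N.Normal] (h1 : l ∉ M ⊔ N) :
    CP p (G ⧸ N) := by
  refine ⟨M.map (QuotientGroup.mk' N), hM.map _ (QuotientGroup.mk'_surjective N),
    QuotientGroup.mk' N l, ?_, ?_, ?_⟩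
  · rintro ⟨m, hm, h⟩
    rw [QuotientGroup.mk'_apply, QuotientGroup.mk'_apply, QuotientGroup.eq] at h
    apply h1
    have : l = m * (m⁻¹ * l) := by group
    rw [this]
    exact mul_mem_sup hm h
  · rw [← map_pow]
    exact mem_map_of_mem _ h2
  · intro x
    obtain ⟨x, rfl⟩ := QuotientGroup.mk'_surjective N x
    rw [← map_commutatorElement]
    exact mem_map_of_mem _ (h3 x)

theorem CP.shift {p : ℕ} {G : Type} [Group G] {M : Subgroup G} (hM : M.Normal) {l : G}
    (h0 : l ∉ M) (h2 : l ^ p ∈ M) (h3 : ∀ x, ⁅l, x⁆ ∈ M) (N : Subgroup G) (h1 : l ∈ M ⊔ N) :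
    ∃ v ∈ N, v ∉ M ∧ v ^ p ∈ M ∧ ∀ x, ⁅v, x⁆ ∈ M := by
  rw [mem_sup_of_normal_left] at h1
  obtain ⟨m, hm, v, hv, rfl⟩ := h1
  have e : (QuotientGroup.mk' M (m * v)) = QuotientGroup.mk' M v := by
    rw [map_mul, QuotientGroup.mk'_apply, (QuotientGroup.eq_one_iff m).mpr hm, one_mul]
  refine ⟨v, hv, ?_, ?_, ?_⟩
  · intro h
    exact h0 (mul_mem hm h)
  · rw [← QuotientGroup.eq_one_iff, ← QuotientGroup.mk'_apply] at h2 ⊢
    rw [map_pow] at h2 ⊢
    rwa [e] at h2
  · intro x
    have := h3 x
    rw [← QuotientGroup.eq_one_iff, ← QuotientGroup.mk'_apply] at this ⊢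
    rw [map_commutatorElement] at this ⊢
    rwa [e] at this

/-- The formation of all finite groups without central chief factors of order `p`. -/
def noCP (p : ℕ) : Formation :=
  Formation.ofHom (fun Y _ => Finite Y ∧ ¬ CP p Y) (fun _ _ h => h.1)
    (fun G H _ _ f hf h => ⟨@Finite.of_surjective _ _ h.1 f hf,
      fun hH => h.2 (hH.of_surjective f hf)⟩)
    (by
      rintro G _ _ N₁ N₂ _ _ h12 ⟨_, h1⟩ ⟨_, h2⟩
      refine ⟨inferInstance, ?_⟩
      rintro ⟨M, hM, l, e1, e2, e3⟩
      by_cases hl : l ∈ M ⊔ N₁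
      · obtain ⟨v, hv, f1, f2, f3⟩ := CP.shift hM e1 e2 e3 N₁ hl
        have hN₁ : N₁.Normal := inferInstance
        -- use the section inside `N₁`
        have g2 : v ^ p ∈ M ⊓ N₁ := ⟨f2, pow_mem hv p⟩
        have g3 : ∀ x, ⁅v, x⁆ ∈ M ⊓ N₁ := fun x => ⟨f3 x, by
          have e : ⁅v, x⁆ = v * (x * v⁻¹ * x⁻¹) := by rw [commutatorElement_def]; group
          rw [e]
          exact mul_mem hv (hN₁.conj_mem _ (inv_mem hv) x)⟩
        apply h2
        refine CP.quot (inferInstance : (M ⊓ N₁).Normal) g2 g3 N₂ ?_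
        intro h
        rw [mem_sup_of_normal_left] at h
        obtain ⟨m, hm, n, hn, rfl⟩ := h
        have : n ∈ N₁ ⊓ N₂ := by
          refine ⟨?_, hn⟩
          have := N₁.mul_mem (N₁.inv_mem hm.2) hv
          rwa [inv_mul_cancel_left] at this
        rw [h12, mem_bot] at this
        rw [this, mul_one] at f1
        exact f1 hm.1
      · exact h1 (CP.quot hM e2 e3 N₁ hl))

/-- The formation of all finite groups without quotient `R`, where `R` has a nonabelian
monolith. -/
def noImage (R : Type) [Group R] (S : Subgroup R) (hS : IsMonolith S) (hna : ⁅S, S⁆ ≠ ⊥) :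
    Formation :=
  Formation.ofHom (fun Y _ => Finite Y ∧ ¬ ∃ f : Y →* R, Function.Surjective f)
    (fun _ _ h => h.1)
    (fun G H _ _ f hf h => ⟨@Finite.of_surjective _ _ h.1 f hf,
      fun ⟨g, hg⟩ => h.2 ⟨g.comp f, hg.comp hf⟩⟩)
    (by
      rintro G _ _ N₁ N₂ hN₁ hN₂ h12 ⟨_, h1⟩ ⟨_, h2⟩
      refine ⟨inferInstance, ?_⟩
      rintro ⟨f, hf⟩
      have key : ∀ N : Subgroup G, ∀ _ : N.Normal, (¬ ∃ g : G ⧸ N →* R, Function.Surjective g) →
          S ≤ N.map f := by
        intro N hN h
        apply hS.2.2 _ (hN.map f hf)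
        intro h0
        rw [Subgroup.map_eq_bot_iff] at h0
        exact h ⟨QuotientGroup.lift N f h0,
          QuotientGroup.lift_surjective_of_surjective N f hf h0⟩
      have k1 := key N₁ hN₁ h1
      have k2 := key N₂ hN₂ h2
      apply hna
      rw [eq_bot_iff]
      calc ⁅S, S⁆ ≤ ⁅N₁.map f, N₂.map f⁆ := commutator_mono k1 k2
        _ = ⁅N₁, N₂⁆.map f := (map_commutator _ _ _).symm
        _ ≤ (N₁ ⊓ N₂).map f := Subgroup.map_mono (commutator_le_inf N₁ N₂)
        _ = ⊥ := by rw [h12, Subgroup.map_bot])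

/-- The formation of all finite groups without nontrivial perfect quotients. -/
def noPerf : Formation :=
  Formation.ofHom (fun Y _ => Finite Y ∧ ∀ L : Subgroup Y, L.Normal → _root_.commutator Y ⊔ L = ⊤ →
      L = ⊤)
    (fun _ _ h => h.1)
    (by
      rintro G H _ _ f hf ⟨h1, h2⟩
      refine ⟨@Finite.of_surjective _ _ h1 f hf, ?_⟩
      intro L hL hT
      have h3 := h2 (L.comap f) (hL.comap f) (by
        rw [eq_top_iff]
        intro x _
        have hx : f x ∈ _root_.commutator H ⊔ L := by rw [hT]; trivial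
        rw [mem_sup_of_normal_left] at hx
        obtain ⟨c, hc, l, hl, hcl⟩ := hx
        have hc' : c ∈ (_root_.commutator G).map f := by
          rw [_root_.commutator_def, map_commutator, ← MonoidHom.range_eq_map,
            MonoidHom.range_eq_top.mpr hf]
          exact hc
        obtain ⟨c', hc', rfl⟩ := hc'
        have e : x = c' * (c'⁻¹ * x) := by group
        rw [e]
        refine mul_mem_sup hc' ?_
        rw [mem_comap, map_mul, map_inv, ← hcl]
        simpa using hl)
      rw [eq_top_iff]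
      intro y _
      obtain ⟨x, rfl⟩ := hf y
      have : x ∈ L.comap f := by rw [h3]; trivial
      exact this)
    (by
      rintro G _ _ N₁ N₂ hN₁ hN₂ h12 ⟨_, h1⟩ ⟨_, h2⟩
      refine ⟨inferInstance, ?_⟩
      intro L hL hT
      have key : ∀ N : Subgroup G, ∀ _ : N.Normal,
          (∀ L : Subgroup (G ⧸ N), L.Normal → _root_.commutator (G ⧸ N) ⊔ L = ⊤ → L = ⊤) →
          L ⊔ N = ⊤ := by
        intro N hN h
        have h3 := h (L.map (QuotientGroup.mk' N)) (hL.map _ (QuotientGroup.mk'_surjective N)) (by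
          have e : _root_.commutator (G ⧸ N) = (_root_.commutator G).map (QuotientGroup.mk' N) := by
            rw [_root_.commutator_def, _root_.commutator_def, map_commutator,
              ← MonoidHom.range_eq_map, MonoidHom.range_eq_top.mpr
              (QuotientGroup.mk'_surjective N)]
          rw [e, ← Subgroup.map_sup, hT, ← MonoidHom.range_eq_map, MonoidHom.range_eq_top.mpr
              (QuotientGroup.mk'_surjective N)])
        have h4 := congrArg (Subgroup.comap (QuotientGroup.mk' N)) h3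
        rw [Subgroup.comap_map_eq, QuotientGroup.ker_mk', Subgroup.comap_top] at h4
        exact h4
      have k1 := key N₁ hN₁ h1
      have k2 := key N₂ hN₂ h2
      have h5 : _root_.commutator G ≤ L := by
        rw [_root_.commutator_def]
        calc ⁅(⊤ : Subgroup G), ⊤⁆ = ⁅L ⊔ N₁, L ⊔ N₂⁆ := by rw [k1, k2]
          _ ≤ L := by
            rw [commutator_le]
            intro a ha b hb
            rw [mem_sup_of_normal_left] at ha hb
            obtain ⟨l, hl, n, hn, rfl⟩ := ha
            obtain ⟨l', hl', n', hn', rfl⟩ := hb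
            rw [← QuotientGroup.eq_one_iff, ← QuotientGroup.mk'_apply, map_commutatorElement,
              map_mul, map_mul, QuotientGroup.mk'_apply, (QuotientGroup.eq_one_iff l).mpr hl,
              one_mul, QuotientGroup.mk'_apply, QuotientGroup.mk'_apply,
              (QuotientGroup.eq_one_iff l').mpr hl',
              one_mul, QuotientGroup.mk'_apply, ← QuotientGroup.mk'_apply, ← QuotientGroup.mk'_apply,
              ← map_commutatorElement, QuotientGroup.mk'_apply, QuotientGroup.eq_one_iff]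
            have h6 : ⁅n, n'⁆ ∈ N₁ ⊓ N₂ :=
              commutator_le_inf N₁ N₂ (commutator_mem_commutator hn hn')
            rw [h12, mem_bot] at h6
            rw [h6]
            exact one_mem L
      rwa [sup_eq_right.mpr h5] at hT)

/-- If `R` has a nonabelian monolith and lies in the formation generated by `X` then `R` is an
image of `X`. -/
theorem image_of_inForm {R X : Type} [Group R] [Group X] [Finite X] {S : Subgroup R}
    (hS : IsMonolith S) (hna : ⁅S, S⁆ ≠ ⊥) (h : InForm X R) :
    ∃ f : X →* R, Function.Surjective f := by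
  by_contra hcon
  exact (h (noImage R S hS hna) (⟨inferInstance, hcon⟩ : Finite X ∧
    ¬ ∃ f : X →* R, Function.Surjective f)).2 ⟨MonoidHom.id R, fun x => ⟨x, rfl⟩⟩

theorem CP_of_inForm {p : ℕ} {Y X : Type} [Group Y] [Group X] [Finite X] (h : InForm X Y)
    (hY : CP p Y) : CP p X := by
  by_contra hcon
  exact (h (noCP p) (⟨inferInstance, hcon⟩ : Finite X ∧ ¬ CP p X)).2 hY

/-- No member of `F` has a perfect monolith of prime index. -/
def Alpha (F : Formation) : Prop :=
  ∀ (R : Type) [Group R], F.mem R → ∀ S : Subgroup R, IsMonolith S → ⁅S, S⁆ = S →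
    ¬ S.index.Prime

theorem index_prime_commutator_le {R : Type} [Group R] {S : Subgroup R} [S.Normal]
    (h : S.index.Prime) : _root_.commutator R ≤ S := by
  have := Fact.mk h
  have hc : IsCyclic (R ⧸ S) := isCyclic_of_prime_card (p := S.index) rfl
  have : ∀ a b : R ⧸ S, a * b = b * a := fun a b => (IsCyclic.isMulCommutative).is_comm.comm a b
  rw [_root_.commutator_def, commutator_le]
  intro a _ b _
  rw [← QuotientGroup.eq_one_iff, ← QuotientGroup.mk'_apply, map_commutatorElement,
    commutatorElement_eq_one_iff_mul_comm]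
  exact this _ _

end Pool.Agent.H69
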