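import Pool.Agent.Lib.H69.Formation.Defs

namespace Pool.Agent.H69

open Subgroup

/-- Every abelian minimal normal subgroup of a member of `F` is central. -/
def CondAbelian (F : Formation) : Prop :=
  ∀ (G : Type) [Group G], F.mem G → ∀ A : Subgroup G, IsMinNormal A →
    (∀ a ∈ A, ∀ b ∈ A, a * b = b * a) → A ≤ center G

/-- The group `G / C_G(A)` for a normal subgroup `A` of `G`. -/
def ModCentralizer {G : Type} [Group G] (A : Subgroup G) [A.Normal] : Type :=
  G ⧸ centralizer (A : Set G)

instance {G : Type} [Group G] (A : Subgroup G) [A.Normal] : Group (ModCentralizer A) :=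
  inferInstanceAs (Group (G ⧸ centralizer (A : Set G)))

/-- `Q` is a homomorphic image of `P`. -/
def IsImage (P Q : Type) [Group P] [Group Q] : Prop :=
  ∃ f : P →* Q, Function.Surjective f

/-- For every normal subgroup `M` of `P` and every minimal normal subgroup `K` of `M`,
the group `M / C_M(K)` is a homomorphic image of `P`. -/
def IsTower (P : Type) [Group P] : Prop :=
  ∀ M : Subgroup P, M.Normal → ∀ (K : Subgroup M) [K.Normal], IsMinNormal K →
    IsImage P (ModCentralizer K)

/-- For every nonabelian minimal normal subgroup `A` of a member `G` of `F`, the group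
`P = G / C_G(A)` satisfies `IsTower`. -/
def CondTower (F : Formation) : Prop :=
  ∀ (G : Type) [Group G], F.mem G → ∀ (A : Subgroup G) [A.Normal], IsMinNormal A →
    (¬ ∀ a ∈ A, ∀ b ∈ A, a * b = b * a) → IsTower (ModCentralizer A)

/-- A quasisimple group: perfect, and simple modulo its centre. -/
def IsQuasisimple (S : Type) [Group S] : Prop :=
  _root_.commutator S = ⊤ ∧ IsSimpleGroup (S ⧸ center S)

/-- Some subdirect subgroup of a finite power of `S` contains no constant tuple
`(a, ..., a)` with `1 ≠ a ∈ A`. -/
def SubdirectAvoids (S : Type) [Group S] (A : Subgroup S) : Prop :=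
  ∃ (r : ℕ) (Y : Subgroup (Fin r → S)), (∀ i s, ∃ y ∈ Y, y i = s) ∧
    ∀ a ∈ A, (fun _ => a) ∈ Y → a = 1

/-- For every quasisimple normal subgroup `S` of a member of `F`, some subdirect subgroup of a
finite power of `S` contains no constant tuple `(z, ..., z)` with `1 ≠ z ∈ Z(S)`. -/
def CondQuasisimple (F : Formation) : Prop :=
  ∀ (G : Type) [Group G], F.mem G → ∀ S : Subgroup G, S.Normal → IsQuasisimple S →
    SubdirectAvoids S (center S)

/-- `X` is a homomorphic image of a subdirect subgroup of a finite power of `G`. -/
def ImageOfSubdirectPower (G X : Type) [Group G] [Group X] : Prop :=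
  ∃ (r : ℕ) (Y : Subgroup (Fin r → G)), (∀ i g, ∃ y ∈ Y, y i = g) ∧
    ∃ θ : Y →* X, Function.Surjective θ

/-- If `G` in `F` is perfect with a unique minimal normal subgroup, this subgroup is
central, and `G` is not generated by its quasisimple normal subgroups, then every perfect normal
subgroup of `G` is a homomorphic image of a subdirect subgroup of a finite power of `G`. -/
def CondRest (F : Formation) : Prop :=
  ∀ (G : Type) [Group G], F.mem G → _root_.commutator G = ⊤ →
    ∀ C : Subgroup G, IsMinNormal C → (∀ B : Subgroup G, IsMinNormal B → B = C) →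
      C ≤ center G → sSup {S : Subgroup G | S.Normal ∧ IsQuasisimple S} ≠ ⊤ →
      ∀ E : Subgroup G, E.Normal → _root_.commutator E = ⊤ → ImageOfSubdirectPower G E

end Pool.Agent.H69
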