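import Mathlib

/-!
Formations of finite groups, minimal normal subgroups, and the two properties of a formation
that are compared in the classification.
-/

namespace Pool.Agent.H69

/-- A formation of finite groups: a class of finite groups closed under isomorphism,
under quotients, and under subdirect products of two quotients. -/
structure Formation where
  /-- membership in the class -/
  mem : ∀ (G : Type) [Group G], Prop
  finite : ∀ (G : Type) [Group G], mem G → Finite G
  iso : ∀ (G H : Type) [Group G] [Group H], (G ≃* H) → mem G → mem H
  quot : ∀ (G : Type) [Group G] (N : Subgroup G) [N.Normal], mem G → mem (G ⧸ N)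
  inter : ∀ (G : Type) [Group G] [Finite G] (N₁ N₂ : Subgroup G) [N₁.Normal] [N₂.Normal],
    mem (G ⧸ N₁) → mem (G ⧸ N₂) → mem (G ⧸ (N₁ ⊓ N₂))

/-- `H` is a subformation of `F`. -/
def Formation.Sub (H F : Formation) : Prop :=
  ∀ (G : Type) [Group G], H.mem G → F.mem G

/-- The class is closed under taking normal subgroups. -/
def Formation.NormallyClosed (F : Formation) : Prop :=
  ∀ (G : Type) [Group G] (N : Subgroup G), N.Normal → F.mem G → F.mem N

/-- `A` is a minimal normal subgroup of `G`. -/
def IsMinNormal {G : Type} [Group G] (A : Subgroup G) : Prop :=
  A.Normal ∧ A ≠ ⊥ ∧ ∀ B : Subgroup G, B.Normal → B ≤ A → B ≠ ⊥ → B = A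

/-- `X` lies in every formation that contains `G`, that is, in the formation generated by `G`. -/
def InForm (G X : Type) [Group G] [Group X] : Prop :=
  ∀ F : Formation, F.mem G → F.mem X

end Pool.Agent.H69
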