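import Pool.Agent.Lib.H69.Formation.Necessity
import Pool.Agent.Lib.H69.Formation.Central

/-!
Necessity of the condition on abelian minimal normal subgroups.
-/

namespace Pool.Agent.H69

open Subgroup
open scoped commutatorElement

theorem nextB_mem (F : Formation) {G : Type} [Group G] (hG : F.mem G) (V : Subgroup G)
    [V.Normal] : F.mem (nextB V) := by
  have := F.finite G hG
  refine F.mem_subdirect ((MonoidHom.fst G G).comp (nextB V).subtype)
    ((MonoidHom.snd G G).comp (nextB V).subtype) ?_ ?_ ?_ hG hG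
  · intro g
    exact ⟨⟨(g, g), by rw [mem_nextB]; simp [one_mem]⟩, rfl⟩
  · intro g
    exact ⟨⟨(g, g), by rw [mem_nextB]; simp [one_mem]⟩, rfl⟩
  · rw [eq_bot_iff]
    rintro ⟨⟨a, b⟩, hab⟩ ⟨h1, h2⟩
    exact Subtype.ext (Prod.ext h1 h2)

/-- The diagonal subgroup `{(c, c) : c ∈ C}` of `{(a, b) : a⁻¹ b ∈ V}`. -/
def diagSub {G : Type} [Group G] (V C : Subgroup G) [V.Normal] : Subgroup (nextB V) where
  carrier := {y | y.1.1 ∈ C ∧ y.1.2 = y.1.1}
  one_mem' := ⟨one_mem C, rfl⟩
  mul_mem' := by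
    rintro a b ⟨h1, h2⟩ ⟨h3, h4⟩
    refine ⟨mul_mem h1 h3, ?_⟩
    change a.1.2 * b.1.2 = a.1.1 * b.1.1
    rw [h2, h4]
  inv_mem' := by
    rintro a ⟨h1, h2⟩
    refine ⟨inv_mem h1, ?_⟩
    change (a.1.2)⁻¹ = (a.1.1)⁻¹
    rw [h2]

theorem mem_diagSub {G : Type} [Group G] (V C : Subgroup G) [V.Normal] (y : nextB V) :
    y ∈ diagSub V C ↔ y.1.1 ∈ C ∧ y.1.2 = y.1.1 := Iff.rfl

theorem diagSub_normal {G : Type} [Group G] (V C : Subgroup G) [V.Normal] [hC : C.Normal]
    (hVC : ∀ v ∈ V, ∀ c ∈ C, v * c = c * v) : (diagSub V C).Normal := by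
  constructor
  rintro y ⟨h1, h2⟩ g
  refine ⟨hC.conj_mem _ h1 _, ?_⟩
  change g.1.2 * y.1.2 * (g.1.2)⁻¹ = g.1.1 * y.1.1 * (g.1.1)⁻¹
  have hg : g.1.1⁻¹ * g.1.2 ∈ V := g.2
  have h3 := hVC _ hg _ h1
  have e : g.1.2 = g.1.1 * (g.1.1⁻¹ * g.1.2) := by group
  rw [h2]
  calc g.1.2 * y.1.1 * (g.1.2)⁻¹ =
      g.1.1 * ((g.1.1⁻¹ * g.1.2) * y.1.1) * (g.1.2)⁻¹ := by group
    _ = g.1.1 * (y.1.1 * (g.1.1⁻¹ * g.1.2)) * (g.1.2)⁻¹ := by rw [h3]
    _ = g.1.1 * y.1.1 * (g.1.1)⁻¹ := by group

theorem card_nextB {G : Type} [Group G] (V : Subgroup G) [V.Normal] :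
    Nat.card (nextB V) = Nat.card G * Nat.card V := by
  rw [← Nat.card_prod]
  refine Nat.card_congr
    { toFun := fun y => (y.1.1, ⟨y.1.1⁻¹ * y.1.2, y.2⟩)
      invFun := fun q => ⟨(q.1, q.1 * q.2.1), by rw [mem_nextB]; simp⟩
      left_inv := ?_
      right_inv := ?_ }
  · rintro ⟨⟨a, b⟩, h⟩
    simp
  · rintro ⟨a, ⟨b, h⟩⟩
    simp

theorem card_diagSub {G : Type} [Group G] (V C : Subgroup G) [V.Normal] :
    Nat.card (diagSub V C) = Nat.card C := by
  refine Nat.card_congr
    { toFun := fun y => ⟨y.1.1.1, y.2.1⟩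
      invFun := fun c => ⟨⟨(c.1, c.1), by rw [mem_nextB]; simp [one_mem]⟩, c.2, rfl⟩
      left_inv := ?_
      right_inv := ?_ }
  · rintro ⟨⟨⟨a, b⟩, h⟩, h1, h2⟩
    apply Subtype.ext
    apply Subtype.ext
    exact Prod.ext rfl h2.symm
  · rintro ⟨a, ha⟩
    rfl

theorem card_quot_lt {G : Type} [Group G] [Finite G] {N : Subgroup G} [N.Normal] (h : N ≠ ⊥) :
    Nat.card (G ⧸ N) < Nat.card G := by
  have e := Subgroup.card_eq_card_quotient_mul_card_subgroup N
  have h4 : 1 < Nat.card N := (Subgroup.one_lt_card_iff_ne_bot N).mpr h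
  have h5 : 0 < Nat.card (G ⧸ N) := Nat.card_pos
  rw [e]
  exact (Nat.lt_mul_iff_one_lt_right h5).mpr h4

/-- If an abelian minimal normal subgroup is noncentral, it is self-centralising, under the
induction hypothesis. -/
theorem centralizer_eq_of_noncentral {F : Formation} {G : Type} [Group G] (hG : F.mem G)
    (ih : ∀ (Q : Type) [Group Q], F.mem Q → Nat.card Q < Nat.card G → CentralAbelian Q)
    {V : Subgroup G} (hV : IsMinNormal V) (hab : ⁅V, V⁆ = ⊥) (hZ : V ⊓ center G = ⊥) :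
    centralizer (V : Set G) = V := by
  have hfin := F.finite G hG
  have hVn := hV.1
  have hle : V ≤ centralizer (V : Set G) := commutator_eq_bot_iff_le_centralizer.mp hab
  by_contra hne
  have hlt : V < centralizer (V : Set G) := lt_of_le_of_ne hle (Ne.symm hne)
  set C := centralizer (V : Set G) with hC
  have hCn : C.Normal := inferInstance
  have hDn : (diagSub V C).Normal := diagSub_normal V C (by
    intro v hv c hc
    exact mem_centralizer_iff.mp hc v hv)
  have hQ : F.mem (nextB V ⧸ diagSub V C) := F.quot _ _ (nextB_mem F hG V)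
  have hcard : Nat.card (nextB V ⧸ diagSub V C) < Nat.card G := by
    have e1 := Subgroup.card_eq_card_quotient_mul_card_subgroup (diagSub V C)
    rw [card_nextB, card_diagSub] at e1
    have e2 : Nat.card V < Nat.card C := Set.Finite.card_lt_card (Set.toFinite _) hlt
    by_contra hcon
    push Not at hcon
    have e3 : 0 < Nat.card G := Nat.card_pos
    have e4 : Nat.card G * Nat.card V < Nat.card G * Nat.card C :=
      (Nat.mul_lt_mul_left e3).mpr e2
    have e5 : Nat.card G * Nat.card C ≤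
      Nat.card (nextB V ⧸ diagSub V C) * Nat.card C := Nat.mul_le_mul_right _ hcon
    omega
  have hca := ih _ hQ hcard
  -- the image of `V × 1`
  let W0 : Subgroup (nextB V) := ((MonoidHom.snd G G).comp (nextB V).subtype).ker
  have hW0 : ∀ y ∈ W0, y.1.1 ∈ V ∧ y.1.2 = 1 := by
    intro y hy
    have h1 : y.1.2 = 1 := hy
    have h2 : y.1.1⁻¹ * y.1.2 ∈ V := y.2
    rw [h1, mul_one] at h2
    exact ⟨by simpa using inv_mem h2, h1⟩
  let W : Subgroup (nextB V ⧸ diagSub V C) := W0.map (QuotientGroup.mk' _)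
  have hWn : W.Normal := (inferInstance : W0.Normal).map _ (QuotientGroup.mk'_surjective _)
  have hW : W ≠ ⊥ := by
    intro h
    rw [Subgroup.map_eq_bot_iff, QuotientGroup.ker_mk'] at h
    apply hV.2.1
    rw [eq_bot_iff]
    intro v hv
    have h1 : (⟨(v, 1), by rw [mem_nextB]; simpa using hv⟩ : nextB V) ∈ W0 := rfl
    have h2 := (h h1).2
    exact h2.symm
  obtain ⟨A, hA, hAW⟩ := exists_minNormal W hWn hW
  have hAab : ⁅A, A⁆ = ⊥ := by
    rw [comm_bot_iff]
    intro a ha b hb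
    obtain ⟨y, hy, rfl⟩ := hAW ha
    obtain ⟨z, hz, rfl⟩ := hAW hb
    rw [← map_mul, ← map_mul]
    congr 1
    obtain ⟨y1, y2⟩ := hW0 y hy
    obtain ⟨z1, z2⟩ := hW0 z hz
    apply Subtype.ext
    refine Prod.ext ?_ ?_
    · exact (comm_bot_iff V V).mp hab _ y1 _ z1
    · change y.1.2 * z.1.2 = z.1.2 * y.1.2
      rw [y2, z2]
  have hAc := hca A hA hAab
  apply hA.2.1
  rw [eq_bot_iff]
  intro a ha
  have hac := hAc ha
  obtain ⟨y, hy, rfl⟩ := hAW ha
  obtain ⟨y1, y2⟩ := hW0 y hy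
  have hyc : y.1.1 ∈ V ⊓ center G := by
    refine ⟨y1, mem_center_of_comm fun g => ?_⟩
    have h1 := mem_center_iff.mp hac (QuotientGroup.mk' _
      (⟨(g, g), by rw [mem_nextB]; simp [one_mem]⟩ : nextB V))
    have h2 : QuotientGroup.mk' (diagSub V C) ⁅y,
      (⟨(g, g), by rw [mem_nextB]; simp [one_mem]⟩ : nextB V)⁆ = 1 := by
      rw [map_commutatorElement, commutatorElement_eq_one_iff_mul_comm]
      exact h1.symm
    rw [QuotientGroup.mk'_apply, QuotientGroup.eq_one_iff] at h2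
    have h3 := h2.2
    change ⁅y.1.2, g⁆ = ⁅y.1.1, g⁆ at h3
    rw [← h3, y2, commutatorElement_one_left]
  rw [hZ, mem_bot] at hyc
  have hy1 : y = 1 := Subtype.ext (Prod.ext hyc y2)
  rw [hy1, map_one]
  exact one_mem _

theorem minNormal_pow_eq_one {G : Type} [Group G] [Finite G] {V : Subgroup G}
    (hV : IsMinNormal V) (hab : ⁅V, V⁆ = ⊥) :
    ∃ p : ℕ, p.Prime ∧ (∀ v ∈ V, v ^ p = 1) ∧ p ∣ Nat.card V ∧
      ∃ v ∈ V, v ≠ 1 := by
  have hVn := hV.1
  have hcard : 1 < Nat.card V := (Subgroup.one_lt_card_iff_ne_bot V).mpr hV.2.1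
  obtain ⟨p, hp, hpd⟩ := Nat.exists_prime_and_dvd (ne_of_gt hcard)
  have := Fact.mk hp
  obtain ⟨v, hv⟩ := exists_prime_orderOf_dvd_card' (G := V) p hpd
  have hcomm := (comm_bot_iff V V).mp hab
  let W : Subgroup G :=
    { carrier := {g | g ∈ V ∧ g ^ p = 1}
      one_mem' := ⟨one_mem V, one_pow p⟩
      mul_mem' := by
        rintro a b ⟨h1, h2⟩ ⟨h3, h4⟩
        refine ⟨mul_mem h1 h3, ?_⟩
        have : Commute a b := hcomm a h1 b h3
        rw [this.mul_pow, h2, h4, one_mul]
      inv_mem' := by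
        rintro a ⟨h1, h2⟩
        exact ⟨inv_mem h1, by rw [inv_pow, h2, inv_one]⟩ }
  have hWn : W.Normal := by
    constructor
    rintro a ⟨h1, h2⟩ g
    refine ⟨hVn.conj_mem a h1 g, ?_⟩
    rw [conj_pow, h2, mul_one, mul_inv_cancel]
  have hv1 : (v : G) ≠ 1 := by
    intro h
    have : v = 1 := Subtype.ext h
    rw [this, orderOf_one] at hv
    exact hp.one_lt.ne hv
  have hvp : (v : G) ^ p = 1 := by
    have : v ^ p = 1 := by rw [← hv]; exact pow_orderOf_eq_one v
    exact congrArg Subtype.val this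
  have hWV : W = V := by
    apply hV.2.2 W hWn (fun g hg => hg.1)
    intro h
    have : (v : G) ∈ W := ⟨v.2, hvp⟩
    rw [h, mem_bot] at this
    exact hv1 this
  refine ⟨p, hp, ?_, hpd, v, v.2, hv1⟩
  intro v hv
  rw [← hWV] at hv
  exact hv.2

theorem condAbelian_aux {F : Formation} (hF : Prop0 F) (n : ℕ) :
    ∀ (G : Type) [Group G], F.mem G → Nat.card G = n → CentralAbelian G := by
  induction n using Nat.strong_induction_on with
  | _ n ih =>
  intro G _ hG hn V hV hab
  have hfin := F.finite G hG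
  have hVn := hV.1
  by_contra hcon
  have hZ : V ⊓ center G = ⊥ := by
    by_contra h
    have := hV.2.2 _ inferInstance inf_le_left h
    exact hcon (inf_eq_left.mp this)
  have ih' : ∀ (Q : Type) [Group Q], F.mem Q → Nat.card Q < Nat.card G → CentralAbelian Q :=
    fun Q _ hQ hc => ih _ (hn ▸ hc) Q hQ rfl
  have hCV := centralizer_eq_of_noncentral hG ih' hV hab hZ
  obtain ⟨p, hp, hexp, hpd, v0, hv0, hv0'⟩ := minNormal_pow_eq_one hV hab
  have hpf := Fact.mk hp
  have hcomm := (comm_bot_iff V V).mp hab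
  -- `V` has a central element of order `p`
  have hCPV : CP p V := by
    refine ⟨⊥, inferInstance, ⟨v0, hv0⟩, ?_, ?_, ?_⟩
    · rw [mem_bot]
      intro h
      exact hv0' (congrArg Subtype.val h)
    · rw [mem_bot]
      exact Subtype.ext (hexp v0 hv0)
    · intro x
      rw [mem_bot, commutatorElement_eq_one_iff_mul_comm]
      exact Subtype.ext (hcomm v0 hv0 x x.2)
  have hCPG : CP p G := CP_of_inForm (hF G V hVn hG) hCPV
  have hCPq : CP p (G ⧸ V) := by
    obtain ⟨M, hM, l, h1, h2, h3⟩ := hCPG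
    by_cases hl : l ∈ M ⊔ V
    · exfalso
      obtain ⟨v, hv, f1, f2, f3⟩ := CP.shift hM h1 h2 h3 V hl
      have hMV : M ⊓ V = ⊥ := by
        by_contra h0
        have := hV.2.2 _ inferInstance inf_le_right h0
        exact f1 ((inf_eq_right.mp this) hv)
      have hvc : v ∈ V ⊓ center G := by
        refine ⟨hv, mem_center_of_comm fun x => ?_⟩
        have : ⁅v, x⁆ ∈ M ⊓ V := ⟨f3 x, by
          have e : ⁅v, x⁆ = v * (x * v⁻¹ * x⁻¹) := by rw [commutatorElement_def]; group
          rw [e]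
          exact mul_mem hv (hVn.conj_mem _ (inv_mem hv) x)⟩
        rwa [hMV, mem_bot] at this
      rw [hZ, mem_bot] at hvc
      rw [hvc] at f1
      exact f1 (one_mem M)
    · exact CP.quot hM h2 h3 V hl
  obtain ⟨zb, hz1, hz2, hz3⟩ := exists_central_of_CP (F := F) (n := Nat.card G)
    (fun X _ hX _ N U hN hna hU hNU hidx => by
      have := F.finite X hX
      exact split_lemma F (alpha_of_prop0 hF) hN hna hNU hidx
        (fun K _ _ => F.quot _ _ (hF X U hU hX F hX)))
    (fun X _ hX hc => ih' X hX hc) hp (G ⧸ V) (F.quot G V hG) (card_quot_lt hV.2.1) hCPq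
  obtain ⟨z, rfl⟩ := QuotientGroup.mk'_surjective V zb
  have hzV : z ∉ V := by
    intro h
    apply hz2
    rw [QuotientGroup.mk'_apply]
    exact (QuotientGroup.eq_one_iff z).mpr h
  have hzp : z ^ p ∈ V := by
    rw [← map_pow, QuotientGroup.mk'_apply] at hz3
    exact (QuotientGroup.eq_one_iff _).mp hz3
  -- fixed points of `z` in `V`
  have hWn : (V ⊓ centralizer {z}).Normal := by
    constructor
    rintro v ⟨hv, hvz⟩ x
    refine ⟨hVn.conj_mem v hv x, ?_⟩
    change _ ∈ centralizer {z}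
    rw [mem_centralizer_singleton_iff]
    change v ∈ centralizer {z} at hvz
    rw [mem_centralizer_singleton_iff] at hvz
    have hc : z⁻¹ * x⁻¹ * z * x ∈ V := by
      rw [← QuotientGroup.eq_one_iff, ← QuotientGroup.mk'_apply]
      simp only [map_mul, map_inv]
      have := mem_center_iff.mp hz1 ((QuotientGroup.mk' V x)⁻¹)
      rw [mul_assoc (QuotientGroup.mk' V z)⁻¹, this]
      group
    have h5 := hcomm v hv _ hc
    have e : x * v * x⁻¹ * z = x * (v * z * (z⁻¹ * x⁻¹ * z * x)) * x⁻¹ := by group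
    have e2 : x * v * x⁻¹ * z = z * (x * v * x⁻¹) := by
      rw [e, hvz, mul_assoc z v, h5]
      group
    exact e2
  have hfix : V ⊓ centralizer {z} ≠ ⊥ := by
    have hpz : IsPGroup p (zpowers z) := by
      intro g
      refine ⟨2, ?_⟩
      obtain ⟨k, hk⟩ := mem_zpowers_iff.mp g.2
      apply Subtype.ext
      change (g : G) ^ p ^ 2 = 1
      rw [← hk, ← zpow_natCast, ← zpow_mul, mul_comm, zpow_mul, zpow_natCast, pow_two, pow_mul,
        hexp _ hzp, one_zpow]
    let _ : MulAction (zpowers z) V :=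
      MulAction.compHom V ((MulAut.conjNormal (H := V)).comp (zpowers z).subtype)
    have hsm : ∀ (g : zpowers z) (v : V), ((g • v : V) : G) = g * v * (g : G)⁻¹ := by
      intro g v
      exact MulAut.conjNormal_apply _ _
    obtain ⟨b, hb, hb1⟩ := hpz.exists_fixed_point_of_prime_dvd_card_of_fixed_point V hpd
      (a := 1) (by
        intro g
        apply Subtype.ext
        rw [hsm]
        simp)
    intro h
    have h6 : (b : G) ∈ V ⊓ centralizer {z} := by
      refine ⟨b.2, ?_⟩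
      change _ ∈ centralizer {z}
      rw [mem_centralizer_singleton_iff]
      have h7 := hb ⟨z, mem_zpowers z⟩
      have h8 := congrArg Subtype.val h7
      rw [hsm] at h8
      change z * b * z⁻¹ = b at h8
      calc (b : G) * z = (z * b * z⁻¹) * z := by rw [h8]
        _ = z * b := by group
    rw [h, mem_bot] at h6
    exact hb1 (Subtype.ext h6.symm)
  have hWV := hV.2.2 _ hWn inf_le_left hfix
  apply hzV
  rw [← hCV, mem_centralizer_iff]
  intro v hv
  have h9 : v ∈ centralizer {z} := (inf_eq_left.mp hWV) hv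
  rw [mem_centralizer_singleton_iff] at h9
  exact h9

theorem condAbelian_of_prop0 {F : Formation} (hF : Prop0 F) : CondAbelian F := by
  intro G _ hG A hA hab
  exact condAbelian_aux hF _ G hG rfl A hA ((comm_bot_iff A A).mpr hab)

end Pool.Agent.H69
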