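import Pool.Agent.Lib.H69.Formation.Basic

/-!
Neumann's theorem: a subgroup of a finite nilpotent group `G` lies in the formation generated
by `G`.
-/

namespace Pool.Agent.H69

open Subgroup
open scoped commutatorElement

theorem commutator_le_of_rotate {G : Type*} [Group G] {H₁ H₂ H₃ K : Subgroup G} [hK : K.Normal]
    (h1 : ⁅⁅H₂, H₃⁆, H₁⁆ ≤ K) (h2 : ⁅⁅H₃, H₁⁆, H₂⁆ ≤ K) : ⁅⁅H₁, H₂⁆, H₃⁆ ≤ K := by
  have key : ∀ H : Subgroup G, H ≤ K ↔ H.map (QuotientGroup.mk' K) = ⊥ := by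
    intro H
    rw [Subgroup.map_eq_bot_iff, QuotientGroup.ker_mk']
  rw [key] at h1 h2 ⊢
  simp only [Subgroup.map_commutator] at h1 h2 ⊢
  exact commutator_commutator_eq_bot_of_rotate h1 h2

theorem lcs_normal {G : Type*} [Group G] (N : Subgroup G) [hN : N.Normal] (k : ℕ) :
    (N.lowerCentralSeries k).Normal := by
  induction k with
  | zero => exact hN
  | succ k ih => rw [Subgroup.lowerCentralSeries_succ]; infer_instance

theorem lcs_commutator_one {G : Type*} [Group G] (N : Subgroup G) [N.Normal] (k : ℕ) :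
    ⁅N.lowerCentralSeries k, ⁅N, N⁆⁆ ≤ N.lowerCentralSeries (k + 2) := by
  have := lcs_normal N (k + 2)
  rw [commutator_comm]
  apply commutator_le_of_rotate
  · rw [commutator_comm N]
    exact le_of_eq rfl
  · rw [← Subgroup.lowerCentralSeries_succ, ← Subgroup.lowerCentralSeries_succ]

/-- The second-level subgroup `{(x, y) ∈ N × N : x⁻¹ y ∈ [N, N]}`. -/
def nextN {B : Type*} [Group B] (N : Subgroup B) [N.Normal] : Subgroup (B × B) where
  carrier := {p | p.1 ∈ N ∧ p.1⁻¹ * p.2 ∈ ⁅N, N⁆}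
  one_mem' := by simp [N.one_mem, (⁅N, N⁆).one_mem]
  mul_mem' := by
    rintro ⟨a, b⟩ ⟨c, d⟩ ⟨h1, h2⟩ ⟨h3, h4⟩
    refine ⟨mul_mem h1 h3, ?_⟩
    have : (a * c)⁻¹ * (b * d) = (c⁻¹ * (a⁻¹ * b) * c⁻¹⁻¹) * (c⁻¹ * d) := by group
    simp only [Prod.mk_mul_mk] at *
    rw [this]
    exact mul_mem (Subgroup.Normal.conj_mem inferInstance _ h2 _) h4
  inv_mem' := by
    rintro ⟨a, b⟩ ⟨h1, h2⟩
    refine ⟨inv_mem h1, ?_⟩
    have : (a⁻¹)⁻¹ * b⁻¹ = a * (a⁻¹ * b)⁻¹ * a⁻¹ := by group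
    simp only [Prod.inv_mk] at *
    rw [this]
    exact Subgroup.Normal.conj_mem inferInstance _ (inv_mem h2) _

theorem mem_nextN {B : Type*} [Group B] (N : Subgroup B) [N.Normal] (p : B × B) :
    p ∈ nextN N ↔ p.1 ∈ N ∧ p.1⁻¹ * p.2 ∈ ⁅N, N⁆ := Iff.rfl

/-- The subgroup `{(x, y) : x⁻¹ y ∈ N}`. -/
def nextB {B : Type*} [Group B] (N : Subgroup B) [N.Normal] : Subgroup (B × B) where
  carrier := {p | p.1⁻¹ * p.2 ∈ N}
  one_mem' := by simp [N.one_mem]
  mul_mem' := by
    rintro ⟨a, b⟩ ⟨c, d⟩ h2 h4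
    have : (a * c)⁻¹ * (b * d) = (c⁻¹ * (a⁻¹ * b) * c⁻¹⁻¹) * (c⁻¹ * d) := by group
    simp only [Prod.mk_mul_mk, Set.mem_ofPred_eq] at *
    rw [this]
    exact mul_mem (Subgroup.Normal.conj_mem inferInstance _ h2 _) h4
  inv_mem' := by
    rintro ⟨a, b⟩ h2
    have : (a⁻¹)⁻¹ * b⁻¹ = a * (a⁻¹ * b)⁻¹ * a⁻¹ := by group
    simp only [Prod.inv_mk, Set.mem_ofPred_eq] at *
    rw [this]
    exact Subgroup.Normal.conj_mem inferInstance _ (inv_mem h2) _

theorem mem_nextB {B : Type*} [Group B] (N : Subgroup B) [N.Normal] (p : B × B) :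
    p ∈ nextB N ↔ p.1⁻¹ * p.2 ∈ N := Iff.rfl

theorem lcs_nextN {B : Type*} [Group B] (N : Subgroup B) [N.Normal] (k : ℕ) (p : B × B)
    (hp : p ∈ (nextN N).lowerCentralSeries k) :
    p.1 ∈ N.lowerCentralSeries k ∧ p.1⁻¹ * p.2 ∈ N.lowerCentralSeries (k + 1) := by
  induction k generalizing p with
  | zero => exact hp
  | succ k ih =>
    have hn1 := lcs_normal N (k + 1)
    have hn2 := lcs_normal N (k + 2)
    rw [Subgroup.lowerCentralSeries_succ] at hp
    let T : Subgroup (B × B) :=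
      { carrier := {p | p.1 ∈ N.lowerCentralSeries (k + 1) ∧
          p.1⁻¹ * p.2 ∈ N.lowerCentralSeries (k + 1 + 1)}
        one_mem' := by simp [one_mem]
        mul_mem' := by
          rintro ⟨a, b⟩ ⟨c, d⟩ ⟨h1, h2⟩ ⟨h3, h4⟩
          refine ⟨mul_mem h1 h3, ?_⟩
          have : (a * c)⁻¹ * (b * d) = (c⁻¹ * (a⁻¹ * b) * c⁻¹⁻¹) * (c⁻¹ * d) := by group
          simp only [Prod.mk_mul_mk] at *
          rw [this]
          exact mul_mem (hn2.conj_mem _ h2 _) h4
        inv_mem' := by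
          rintro ⟨a, b⟩ ⟨h1, h2⟩
          refine ⟨inv_mem h1, ?_⟩
          have : (a⁻¹)⁻¹ * b⁻¹ = a * (a⁻¹ * b)⁻¹ * a⁻¹ := by group
          simp only [Prod.inv_mk] at *
          rw [this]
          exact hn2.conj_mem _ (inv_mem h2) _ }
    have hT : ⁅(nextN N).lowerCentralSeries k, nextN N⁆ ≤ T := by
      rw [commutator_le]
      rintro ⟨x, y⟩ hxy ⟨u, v⟩ huv
      obtain ⟨h1, h2⟩ := ih _ hxy
      obtain ⟨h3, h4⟩ := huv
      simp only at h1 h2 h3 h4
      -- work modulo `γ_{k+2}`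
      have hxu : ⁅x, u⁆ ∈ N.lowerCentralSeries (k + 1) := by
        rw [Subgroup.lowerCentralSeries_succ]
        exact commutator_mem_commutator h1 h3
      refine ⟨hxu, ?_⟩
      change (⁅x, u⁆)⁻¹ * ⁅y, v⁆ ∈ N.lowerCentralSeries (k + 1 + 1)
      obtain ⟨c, hc, rfl⟩ : ∃ c ∈ N.lowerCentralSeries (k + 1), y = x * c :=
        ⟨x⁻¹ * y, h2, by group⟩
      obtain ⟨d, hd, rfl⟩ : ∃ d ∈ ⁅N, N⁆, v = u * d := ⟨u⁻¹ * v, h4, by group⟩
      have hdN : d ∈ N := commutator_le_left N N hd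
      have e1 : ⁅c, u * d⁆ ∈ N.lowerCentralSeries (k + 1 + 1) := by
        rw [Subgroup.lowerCentralSeries_succ]
        exact commutator_mem_commutator hc (mul_mem h3 hdN)
      have e2 : ⁅x, d⁆ ∈ N.lowerCentralSeries (k + 2) :=
        lcs_commutator_one N k (commutator_mem_commutator h1 hd)
      have e3 : (⁅x, u⁆)⁻¹ * ⁅x * c, u * d⁆ =
          ((⁅x, u⁆)⁻¹ * (x * ⁅c, u * d⁆ * x⁻¹) * ((⁅x, u⁆)⁻¹)⁻¹) * (u * ⁅x, d⁆ * u⁻¹) := by
        simp only [commutatorElement_def]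
        group
      rw [e3]
      exact mul_mem (hn2.conj_mem _ (hn2.conj_mem _ e1 _) _) (hn2.conj_mem _ e2 _)
    exact hT hp

/-- The inductive data. -/
structure CubeData (G : Type) [Group G] (j : ℕ) where
  B : Type
  [grp : Group B]
  [fin : Finite B]
  N : Subgroup B
  [nrm : N.Normal]
  ι : Type
  ε : ι → B →* G
  t : B →* G
  inj : ∀ b, (∀ i, ε i b = 1) → t b = 1 → b = 1
  const : ∀ g, ∃ n ∈ N, t n = g
  single : ∀ i g, ∃ b, ε i b = g ∧ t b = 1
  low : ∀ k, ∀ n ∈ N.lowerCentralSeries k, (∀ i, ε i n = 1) →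
    t n ∈ (⊤ : Subgroup G).lowerCentralSeries (k + j)

attribute [instance] CubeData.grp CubeData.fin CubeData.nrm

/-- Restrict a homomorphism on `B × B` composed with evaluations. -/
def cubeNextEval {G B : Type} [Group G] [Group B] (N : Subgroup B) [N.Normal] {ι : Type}
    (ε : ι → B →* G) (t : B →* G) : (ι ⊕ Unit) ⊕ ι → nextB N →* G
  | Sum.inl (Sum.inl i) => (ε i).comp ((MonoidHom.fst B B).comp (nextB N).subtype)
  | Sum.inl (Sum.inr _) => t.comp ((MonoidHom.fst B B).comp (nextB N).subtype)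
  | Sum.inr i => (ε i).comp ((MonoidHom.snd B B).comp (nextB N).subtype)

theorem nextN_subgroupOf_normal {B : Type} [Group B] (N : Subgroup B) [hN : N.Normal] :
    ((nextN N).subgroupOf (nextB N)).Normal := by
  constructor
  rintro ⟨⟨a, b⟩, hab⟩ h ⟨⟨c, d⟩, hcd⟩
  rw [mem_subgroupOf] at h ⊢
  obtain ⟨h1, h2⟩ := h
  change a ∈ N at h1
  change a⁻¹ * b ∈ ⁅N, N⁆ at h2
  change c⁻¹ * d ∈ N at hcd
  refine ⟨hN.conj_mem _ h1 _, ?_⟩
  change (c * a * c⁻¹)⁻¹ * (d * b * d⁻¹) ∈ ⁅N, N⁆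
  obtain ⟨m, hm, rfl⟩ : ∃ m ∈ N, d = c * m := ⟨c⁻¹ * d, hcd, by group⟩
  obtain ⟨e, he, rfl⟩ : ∃ e ∈ ⁅N, N⁆, b = a * e := ⟨a⁻¹ * b, h2, by group⟩
  have e3 : (c * a * c⁻¹)⁻¹ * (c * m * (a * e) * (c * m)⁻¹) =
      c * (⁅(a⁻¹ : B), m⁆ * (m * e * m⁻¹)) * c⁻¹ := by
    simp only [commutatorElement_def]
    group
  rw [e3]
  have hn : (⁅N, N⁆).Normal := inferInstance
  exact hn.conj_mem _ (mul_mem (commutator_mem_commutator (inv_mem h1) hm)
    (hn.conj_mem _ he _)) _

/-- One step of the construction. -/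
theorem CubeData.step {G : Type} [Group G] {j : ℕ} (D : CubeData G j) :
    (∀ b : nextB D.N, (∀ i, cubeNextEval D.N D.ε D.t i b = 1) →
      D.t b.1.2 ∈ (⊤ : Subgroup G).lowerCentralSeries j) ∧
    (∀ i g, ∃ b : nextB D.N, cubeNextEval D.N D.ε D.t i b = g ∧ D.t b.1.2 = 1) ∧
    Nonempty (CubeData G (j + 1)) := by
  have hsingle : ∀ i g, ∃ b : nextB D.N, cubeNextEval D.N D.ε D.t i b = g ∧ D.t b.1.2 = 1 := by
    intro i g
    rcases i with (i | i) | i
    · obtain ⟨b, h1, h2⟩ := D.single i g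
      exact ⟨⟨(b, b), by rw [mem_nextB]; simp [one_mem]⟩, h1, h2⟩
    · obtain ⟨n, hn, h2⟩ := D.const g
      exact ⟨⟨(n, 1), by rw [mem_nextB]; simpa using hn⟩, h2, map_one _⟩
    · obtain ⟨b, h1, h2⟩ := D.single i g
      exact ⟨⟨(b, b), by rw [mem_nextB]; simp [one_mem]⟩, h1, h2⟩
  have hfst : ∀ b : nextB D.N, (∀ i, cubeNextEval D.N D.ε D.t i b = 1) → b.1.1 = 1 := by
    intro b hb
    exact D.inj _ (fun i => hb (Sum.inl (Sum.inl i))) (hb (Sum.inl (Sum.inr ())))
  refine ⟨?_, hsingle, ?_⟩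
  · intro b hb
    have h0 := hfst b hb
    have h1 : b.1.2 ∈ D.N := by
      have := (mem_nextB D.N b.1).mp b.2
      rwa [h0, inv_one, one_mul] at this
    have h2 := D.low 0 b.1.2 h1 fun i => hb (Sum.inr i)
    rwa [zero_add] at h2
  · have hnorm := nextN_subgroupOf_normal D.N
    refine ⟨{ B := nextB D.N
              N := (nextN D.N).subgroupOf (nextB D.N)
              ι := (D.ι ⊕ Unit) ⊕ D.ι
              ε := cubeNextEval D.N D.ε D.t
              t := D.t.comp ((MonoidHom.snd D.B D.B).comp (nextB D.N).subtype)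
              inj := ?_
              const := ?_
              single := hsingle
              low := ?_ }⟩
    · intro b hb ht
      have h0 := hfst b hb
      have h1 : b.1.2 = 1 := D.inj _ (fun i => hb (Sum.inr i)) ht
      exact Subtype.ext (Prod.ext h0 h1)
    · intro g
      obtain ⟨n, hn, h2⟩ := D.const g
      refine ⟨⟨(n, n), by rw [mem_nextB]; simp [one_mem]⟩, ?_, h2⟩
      rw [mem_subgroupOf, mem_nextN]
      exact ⟨hn, by simp [one_mem]⟩
    · intro k n hn hε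
      have h0 := hfst n hε
      have h1 : (n : D.B × D.B) ∈ (nextN D.N).lowerCentralSeries k := by
        have h2 := Subgroup.mem_map_of_mem (nextB D.N).subtype hn
        rw [map_lowerCentralSeries] at h2
        have h3 : ((nextN D.N).subgroupOf (nextB D.N)).map (nextB D.N).subtype ≤ nextN D.N := by
          rw [subgroupOf_map_subtype]
          exact inf_le_left
        have h4 : ∀ (S T : Subgroup (D.B × D.B)) (_ : S ≤ T) (k : ℕ),
            S.lowerCentralSeries k ≤ T.lowerCentralSeries k := by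
          intro S T hST k
          induction k with
          | zero => exact hST
          | succ k ih =>
            rw [Subgroup.lowerCentralSeries_succ, Subgroup.lowerCentralSeries_succ]
            exact commutator_mono ih hST
        exact h4 _ _ h3 k h2
      have h2 := (lcs_nextN D.N k _ h1).2
      rw [h0, inv_one, one_mul] at h2
      have h3 := D.low (k + 1) _ h2 fun i => hε (Sum.inr i)
      have e : k + 1 + j = k + (j + 1) := by ring
      rw [e] at h3
      exact h3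

theorem exists_cubeData (G : Type) [Group G] [Finite G] (j : ℕ) : Nonempty (CubeData G j) := by
  induction j with
  | zero =>
    exact ⟨{ B := G
             N := ⊤
             ι := Empty
             ε := fun i => i.elim
             t := MonoidHom.id G
             inj := fun b _ h => h
             const := fun g => ⟨g, Subgroup.mem_top g, rfl⟩
             single := fun i => i.elim
             low := fun k n hn _ => hn }⟩
  | succ j ih =>
    obtain ⟨D⟩ := ih
    exact D.step.2.2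

/-- **Neumann's theorem**: every subgroup of a finite nilpotent group `G` lies in every
formation containing `G`. -/
theorem inForm_of_nilpotent (G : Type) [Group G] [Group.IsNilpotent G] (H : Subgroup G) :
    InForm G H := by
  intro F hG
  have := F.finite G hG
  obtain ⟨j, hj⟩ := Subgroup.nilpotent_iff_lowerCentralSeries.mp (inferInstance : Group.IsNilpotent G)
  obtain ⟨D⟩ := exists_cubeData G j
  obtain ⟨h1, h2, -⟩ := D.step
  let t : nextB D.N →* G := D.t.comp ((MonoidHom.snd D.B D.B).comp (nextB D.N).subtype)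
  let Y : Subgroup (nextB D.N) := H.comap t
  have hY : F.mem Y := by
    refine F.mem_of_family hG (fun _ : (D.ι ⊕ Unit) ⊕ D.ι => G)
      (fun i => (cubeNextEval D.N D.ε D.t i).comp Y.subtype) ?_ (fun _ => hG) ?_
    · intro i g
      obtain ⟨b, hb1, hb2⟩ := h2 i g
      refine ⟨⟨b, ?_⟩, hb1⟩
      rw [Subgroup.mem_comap]
      change D.t b.1.2 ∈ H
      rw [hb2]
      exact one_mem H
    · intro b hb
      have h3 := h1 b.1 hb
      rw [hj, Subgroup.mem_bot] at h3
      have h4 : b.1.1.1 = 1 :=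
        D.inj _ (fun i => hb (Sum.inl (Sum.inl i))) (hb (Sum.inl (Sum.inr ())))
      have h5 : b.1.1.2 = 1 := D.inj _ (fun i => hb (Sum.inr i)) h3
      exact Subtype.ext (Subtype.ext (Prod.ext h4 h5))
  let f : Y →* H := (t.comp Y.subtype).codRestrict H fun b => b.2
  refine F.mem_of_surjective f ?_ hY
  rintro ⟨h, hh⟩
  obtain ⟨n, hn, h2⟩ := D.const h
  refine ⟨⟨⟨(n, n), by rw [mem_nextB]; simp [one_mem]⟩, ?_⟩, ?_⟩
  · rw [Subgroup.mem_comap]
    change D.t n ∈ H
    rwa [h2]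
  · exact Subtype.ext h2

end Pool.Agent.H69
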