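import Pool.Agent.Lib.H69.Formation.Split
import Pool.Agent.Lib.H69.Formation.Neumann
import Pool.Agent.Lib.H69.Formation.Conds

/-!
Necessity of the three conditions.
-/

namespace Pool.Agent.H69

open Subgroup
open scoped commutatorElement

/-- If `G` in `F` is perfect with a unique minimal normal subgroup, and this subgroup is
central, then every perfect normal subgroup of `G` lies in the formation generated by `G`. -/
def CondPerfect (F : Formation) : Prop :=
  ∀ (G : Type) [Group G], F.mem G → _root_.commutator G = ⊤ →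
    ∀ C : Subgroup G, IsMinNormal C → (∀ B : Subgroup G, IsMinNormal B → B = C) →
      C ≤ center G → ∀ E : Subgroup G, E.Normal → ⁅E, E⁆ = E → InForm G E

theorem commutator_coe_eq_top_iff {X : Type} [Group X] (S : Subgroup X) :
    _root_.commutator S = ⊤ ↔ ⁅S, S⁆ = S := by
  have h : (_root_.commutator S).map S.subtype = ⁅S, S⁆ := by
    rw [_root_.commutator_def, map_commutator, ← MonoidHom.range_eq_map, S.range_subtype]
  constructor
  · intro h1
    rw [← h, h1, ← MonoidHom.range_eq_map, S.range_subtype]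
  · intro h1
    rw [h1] at h
    apply Subgroup.map_injective S.subtype_injective
    rw [h, ← MonoidHom.range_eq_map, S.range_subtype]

/-- The reformulated property. -/
def Prop0 (F : Formation) : Prop :=
  ∀ (G : Type) [Group G] (N : Subgroup G), N.Normal → F.mem G → InForm G N

theorem alpha_of_prop0 {F : Formation} (hF : Prop0 F) : Alpha F := by
  intro R _ hR S hS hSS hp
  have hfin := F.finite R hR
  have hSn := hS.1
  have h1 : InForm R S := hF R S hSn hR
  have hR' : _root_.commutator R ≤ S := index_prime_commutator_le hp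
  have h2 : noPerf.mem R := by
    refine ⟨hfin, ?_⟩
    intro L hL hT
    by_cases hL0 : L = ⊥
    · exfalso
      rw [hL0, sup_bot_eq] at hT
      rw [hT, top_le_iff] at hR'
      rw [hR', Subgroup.index_top] at hp
      exact Nat.not_prime_one hp
    · have h3 := hS.2.2 L hL hL0
      rwa [sup_eq_right.mpr (hR'.trans h3)] at hT
  have h4 := (h1 noPerf h2).2 ⊥ inferInstance (by
    rw [sup_bot_eq]
    exact (commutator_coe_eq_top_iff S).mpr hSS)
  apply hS.2.1
  refine (Subgroup.eq_bot_iff_forall S).mpr fun x hx => ?_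
  have h5 : (⟨x, hx⟩ : S) ∈ (⊥ : Subgroup S) := by rw [h4]; trivial
  exact congrArg Subtype.val (mem_bot.mp h5)

/-- A minimal normal subgroup of a normal subgroup is nonabelian if the big group has a
nonabelian monolith with trivial centraliser. -/
theorem nonabelian_of_monolith {P : Type} [Group P] [Finite P] {A : Subgroup P}
    (hA : IsMonolith A) (hna : ⁅A, A⁆ ≠ ⊥) {M : Subgroup P} (hM : M.Normal) {K : Subgroup M}
    (hK : IsMinNormal K) : ⁅K, K⁆ ≠ ⊥ := by
  intro hab
  have hAn := hA.1
  have hAm := hA.minNormal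
  have hKn := hK.1
  -- `A` is contained in `M`
  have hM0 : M ≠ ⊥ := by
    intro h
    apply hK.2.1
    subst h
    exact Subsingleton.elim _ _
  have hAM : A ≤ M := hA.2.2 M hM hM0
  have hab' : ∀ a ∈ K.map M.subtype, ∀ b ∈ K.map M.subtype, a * b = b * a := by
    rw [comm_bot_iff] at hab
    rintro _ ⟨a, ha, rfl⟩ _ ⟨b, hb, rfl⟩
    exact congrArg Subtype.val (hab a ha b hb)
  have hconj : ∀ m ∈ M, ∀ k ∈ K.map M.subtype, m * k * m⁻¹ ∈ K.map M.subtype := by
    rintro m hm _ ⟨k, hk, rfl⟩
    exact ⟨⟨m, hm⟩ * k * ⟨m, hm⟩⁻¹, hKn.conj_mem k hk _, rfl⟩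
  have h1 : K.map M.subtype ⊓ A = ⊥ := by
    apply hAm.abelian_eq_bot hna
    · exact ⟨inf_le_right, fun n hn k hk =>
        ⟨hconj n (hAM hn) k hk.1, hAn.conj_mem k hk.2 n⟩⟩
    · rw [comm_bot_iff]
      intro a ha b hb
      exact hab' a ha.1 b hb.1
  have h2 : K.map M.subtype ≤ centralizer (A : Set P) := by
    refine le_centralizer_of_inf_eq_bot (fun b hb a ha => hconj b (hAM hb) a ha)
      (fun a _ b hb => hAn.conj_mem b hb a) h1
  have h3 : centralizer (A : Set P) = ⊥ := by
    by_contra h
    have h4 := hA.2.2 _ inferInstance h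
    exact hna (commutator_eq_bot_iff_le_centralizer.mpr h4)
  rw [h3, le_bot_iff] at h2
  exact hK.2.1 ((Subgroup.map_eq_bot_iff_of_injective K M.subtype_injective).mp h2)

/-- Expanded form of `CondTower`. -/
def CondTower' (F : Formation) : Prop :=
  ∀ (G : Type) [Group G], F.mem G → ∀ (A : Subgroup G) [A.Normal], IsMinNormal A →
    (¬ ∀ a ∈ A, ∀ b ∈ A, a * b = b * a) →
    ∀ M : Subgroup (G ⧸ centralizer (A : Set G)), M.Normal →
    ∀ (K : Subgroup M) [K.Normal], IsMinNormal K →
      ∃ f : (G ⧸ centralizer (A : Set G)) →* (M ⧸ centralizer (K : Set M)),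
        Function.Surjective f

theorem condTower_iff (F : Formation) : CondTower F ↔ CondTower' F := Iff.rfl

theorem condTower_of_prop0 {F : Formation} (hF : Prop0 F) : CondTower F := by
  rw [condTower_iff]
  intro G _ hG A hAn hA hna M hM K hKn hK
  have hna' : ⁅A, A⁆ ≠ ⊥ := by rwa [Ne, comm_bot_iff]
  have hfin := F.finite G hG
  obtain ⟨m1, m2⟩ := hA.monolith_quotient hna'
  have m3 : ⁅A.map (QuotientGroup.mk' (centralizer (A : Set G))),
      A.map (QuotientGroup.mk' (centralizer (A : Set G)))⁆ ≠ ⊥ := by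
    rw [m2]; exact m1.2.1
  have hKna := nonabelian_of_monolith m1 m3 hM hK
  obtain ⟨k1, k2⟩ := hK.monolith_quotient hKna
  refine image_of_inForm (S := K.map (QuotientGroup.mk' (centralizer (K : Set M)))) k1
    (by rw [k2]; exact k1.2.1) ?_
  exact (hF _ M hM (F.quot G _ hG)).of_surjective (QuotientGroup.mk' _)
    (QuotientGroup.mk'_surjective _)

theorem condPerfect_of_prop0 {F : Formation} (hF : Prop0 F) : CondPerfect F := by
  intro G _ hG _ C _ _ _ E hE _
  exact hF G E hE hG

end Pool.Agent.H69
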