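import Pool.Agent.Lib.H69.Formation.Avoid

/-!
Groups generated by quasisimple normal subgroups, and the final classification.
-/

namespace Pool.Agent.H69

open Subgroup
open scoped commutatorElement

variable {G : Type} [Group G]

theorem quasisimple_dichotomy {S : Subgroup G} (hSn : S.Normal) (hS : IsQuasisimple S)
    {E : Subgroup G} (hE : E.Normal) : S ≤ E ∨ ⁅S, E⁆ = ⊥ := by
  obtain ⟨hperf, hsimple⟩ := hS
  have hSS : ⁅S, S⁆ = S := (commutator_coe_eq_top_iff S).mp hperf
  let E' : Subgroup S := E.subgroupOf S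
  have hE'n : E'.Normal := inferInstance
  have hmn : (E'.map (QuotientGroup.mk' (center S))).Normal :=
    hE'n.map _ (QuotientGroup.mk'_surjective _)
  rcases hmn.eq_bot_or_eq_top with h | h
  · right
    rw [Subgroup.map_eq_bot_iff, QuotientGroup.ker_mk'] at h
    have h1 : ⁅⁅S, E⁆, S⁆ = ⊥ := by
      rw [comm_bot_iff]
      intro a ha b hb
      have ha1 : a ∈ S := commutator_le_left S E ha
      have ha2 : a ∈ E := commutator_le_right S E ha
      have h2 : (⟨a, ha1⟩ : S) ∈ center S := h (show (⟨a, ha1⟩ : S) ∈ E' from ha2)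
      exact (congrArg Subtype.val (mem_center_iff.mp h2 ⟨b, hb⟩)).symm
    have h2 : ⁅⁅E, S⁆, S⁆ = ⊥ := by rw [commutator_comm E S]; exact h1
    have h3 := commutator_commutator_eq_bot_of_rotate h1 h2
    rwa [hSS] at h3
  · left
    have h1 : E' ⊔ center S = ⊤ := by
      have h4 := congrArg (Subgroup.comap (QuotientGroup.mk' (center S))) h
      rw [Subgroup.comap_map_eq, QuotientGroup.ker_mk', Subgroup.comap_top] at h4
      exact h4
    have h2 : _root_.commutator S ≤ E' := by
      rw [_root_.commutator_def, commutator_le]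
      intro a _ b _
      have ha : a ∈ E' ⊔ center S := by rw [h1]; trivial
      have hb : b ∈ E' ⊔ center S := by rw [h1]; trivial
      rw [mem_sup_of_normal_left] at ha hb
      obtain ⟨l, hl, z, hz, rfl⟩ := ha
      obtain ⟨l', hl', z', hz', rfl⟩ := hb
      have e1 : QuotientGroup.mk' E' (l * z) = QuotientGroup.mk' E' z := by
        rw [map_mul, QuotientGroup.mk'_apply, (QuotientGroup.eq_one_iff l).mpr hl, one_mul]
      have e2 : QuotientGroup.mk' E' (l' * z') = QuotientGroup.mk' E' z' := by
        rw [map_mul, QuotientGroup.mk'_apply, (QuotientGroup.eq_one_iff l').mpr hl', one_mul]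
      rw [← QuotientGroup.eq_one_iff, ← QuotientGroup.mk'_apply, map_commutatorElement, e1, e2,
        ← map_commutatorElement]
      have e3 : ⁅z, z'⁆ = 1 := by
        rw [commutatorElement_eq_one_iff_mul_comm]
        exact (mem_center_iff.mp hz z').symm
      rw [e3, map_one]
    rw [hperf, top_le_iff] at h2
    exact Subgroup.subgroupOf_eq_top.mp h2

theorem inForm_sup {X R₁ R₂ : Subgroup G} [R₁.Normal]
    (hc : ∀ a ∈ R₁, ∀ b ∈ R₂, a * b = b * a) (h1 : InForm G R₁) (h2 : InForm G R₂)
    (hX : X = R₁ ⊔ R₂) : InForm G X := by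
  subst hX
  refine (inForm_prod h1 h2).of_surjective
    { toFun := fun q => (⟨q.1.1 * q.2.1, mul_mem_sup q.1.2 q.2.2⟩ : (R₁ ⊔ R₂ : Subgroup G))
      map_one' := Subtype.ext (mul_one 1)
      map_mul' := ?_ } ?_
  · rintro ⟨⟨a, ha⟩, ⟨b, hb⟩⟩ ⟨⟨c, hc'⟩, ⟨d, hd⟩⟩
    apply Subtype.ext
    change a * c * (b * d) = a * b * (c * d)
    have := hc c hc' b hb
    calc a * c * (b * d) = a * (c * b) * d := by group
      _ = a * (b * c) * d := by rw [this]
      _ = a * b * (c * d) := by group
  · rintro ⟨x, hx⟩
    rw [mem_sup_of_normal_left] at hx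
    obtain ⟨a, ha, b, hb, rfl⟩ := hx
    exact ⟨(⟨a, ha⟩, ⟨b, hb⟩), rfl⟩

/-- A quasisimple factor lies in the formation generated by the group. -/
theorem inForm_of_avoids [Finite G] {S : Subgroup G} (hSn : S.Normal)
    (htop : S ⊔ centralizer (S : Set G) = ⊤) (hav : SubdirectAvoids S (center S)) :
    InForm G S := by
  obtain ⟨r, Y, hY1, hY2⟩ := hav
  have hcomm : ∀ s : S, ∀ g : centralizer (S : Set G), (s : G) * g = g * s := by
    intro s g
    exact mem_centralizer_iff.mp g.2 s s.2
  have hcen : ∀ (w : center S) (s : S), (s : G) * (w : S) = (w : S) * s := by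
    intro w s
    exact congrArg Subtype.val (mem_center_iff.mp w.2 s)
  let ψ : Option (Fin r) → ((Y × center S) × (centralizer (S : Set G) × S)) →* G := fun o =>
    match o with
    | none =>
      { toFun := fun q => (q.2.2 : G) * (q.2.1 : G)
        map_one' := by simp
        map_mul' := by
          rintro ⟨⟨y, w⟩, ⟨g, s⟩⟩ ⟨⟨y', w'⟩, ⟨g', s'⟩⟩
          change (s : G) * s' * (g * g') = s * g * (s' * g')
          have := hcomm s' g
          calc (s : G) * s' * (g * g') = s * (s' * g) * g' := by group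
            _ = s * (g * s') * g' := by rw [this]
            _ = s * g * (s' * g') := by group }
    | some j =>
      { toFun := fun q => ((q.1.1.1 j : S) : G) * ((q.1.2 : S) : G) * (q.2.1 : G)
        map_one' := by simp
        map_mul' := by
          rintro ⟨⟨y, w⟩, ⟨g, s⟩⟩ ⟨⟨y', w'⟩, ⟨g', s'⟩⟩
          change ((y.1 j : S) : G) * (y'.1 j : S) * ((w : S) * (w' : S)) * (g * g') =
            (y.1 j : S) * (w : S) * g * ((y'.1 j : S) * (w' : S) * g')
          have h1 := hcen w (y'.1 j)
          have h2 := hcomm (y'.1 j) g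
          have h3 := hcomm w' g
          calc ((y.1 j : S) : G) * (y'.1 j : S) * ((w : S) * (w' : S)) * (g * g')
              = (y.1 j : S) * ((y'.1 j : S) * (w : S)) * (((w' : S) : G) * g) * g' := by group
            _ = (y.1 j : S) * ((w : S) * (y'.1 j : S)) * (g * ((w' : S) : G)) * g' := by
                rw [h1, h3]
            _ = (y.1 j : S) * (w : S) * ((y'.1 j : S) * g) * ((w' : S) : G) * g' := by group
            _ = (y.1 j : S) * (w : S) * (g * (y'.1 j : S)) * ((w' : S) : G) * g' := by
                rw [h2]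
            _ = (y.1 j : S) * (w : S) * g * ((y'.1 j : S) * (w' : S) * g') := by group }
  let θ : ((Y × center S) × (centralizer (S : Set G) × S)) →* S :=
    { toFun := fun q => q.2.2 * (q.1.2 : S)⁻¹
      map_one' := by simp
      map_mul' := by
        rintro ⟨⟨y, w⟩, ⟨g, s⟩⟩ ⟨⟨y', w'⟩, ⟨g', s'⟩⟩
        change s * s' * ((w : S) * (w' : S))⁻¹ = s * (w : S)⁻¹ * (s' * (w' : S)⁻¹)
        have h1 : (w : S)⁻¹ * s' = s' * (w : S)⁻¹ :=
          (mem_center_iff.mp (inv_mem w.2) s').symm
        have h2 : (w : S)⁻¹ * (w' : S)⁻¹ = (w' : S)⁻¹ * (w : S)⁻¹ :=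
          (mem_center_iff.mp (inv_mem w.2) _).symm
        calc s * s' * ((w : S) * (w' : S))⁻¹ = s * s' * ((w' : S)⁻¹ * (w : S)⁻¹) := by group
          _ = s * s' * ((w : S)⁻¹ * (w' : S)⁻¹) := by rw [h2]
          _ = s * (s' * (w : S)⁻¹) * (w' : S)⁻¹ := by group
          _ = s * ((w : S)⁻¹ * s') * (w' : S)⁻¹ := by rw [h1]
          _ = s * (w : S)⁻¹ * (s' * (w' : S)⁻¹) := by group }
  have hdec : ∀ x : G, ∃ s : S, ∃ g : centralizer (S : Set G), (s : G) * g = x := by
    intro x
    have hx : x ∈ S ⊔ centralizer (S : Set G) := by rw [htop]; trivial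
    rw [mem_sup_of_normal_left] at hx
    obtain ⟨s, hs, g, hg, rfl⟩ := hx
    exact ⟨⟨s, hs⟩, ⟨g, hg⟩, rfl⟩
  refine inForm_of_qr ψ θ ?_ ?_ ?_
  · rintro (_ | j) x
    · obtain ⟨s, g, rfl⟩ := hdec x
      exact ⟨((1, 1), (g, s)), rfl⟩
    · obtain ⟨s, g, rfl⟩ := hdec x
      obtain ⟨y, hy, hys⟩ := hY1 j s
      refine ⟨((⟨y, hy⟩, 1), (g, 1)), ?_⟩
      change ((y j : S) : G) * ((1 : S) : G) * g = s * g
      rw [hys]
      simp
  · intro s
    refine ⟨((1, 1), (1, s)), ?_⟩
    change s * ((1 : center S) : S)⁻¹ = s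
    simp
  · rintro ⟨⟨y, w⟩, ⟨g, s⟩⟩ hq
    have h0 : (s : G) * g = 1 := hq none
    have hj : ∀ j, ((y.1 j : S) : G) * ((w : S) : G) * g = 1 := fun j => hq (some j)
    have hg : (g : G) = (s : G)⁻¹ := (inv_eq_of_mul_eq_one_right h0).symm
    have hsc : s ∈ center S := by
      rw [mem_center_iff]
      intro t
      apply Subtype.ext
      change (t : G) * s = s * t
      have h1 := hcomm t g
      rw [hg] at h1
      calc (t : G) * s = s * ((s : G)⁻¹ * t) * s := by group
        _ = s * (t * (s : G)⁻¹) * s := by rw [h1]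
        _ = s * t := by group
    have hyc : ∀ j, y.1 j = s * (w : S)⁻¹ := by
      intro j
      apply Subtype.ext
      change ((y.1 j : S) : G) = (s : G) * ((w : S) : G)⁻¹
      have h1 := hj j
      rw [hg] at h1
      have h2 : ((y.1 j : S) : G) * ((w : S) : G) = s := by
        rwa [mul_inv_eq_one] at h1
      rw [← h2]; group
    have hconst : (fun _ => s * (w : S)⁻¹) ∈ Y := by
      have : y.1 = fun _ => s * (w : S)⁻¹ := funext hyc
      rw [← this]
      exact y.2
    exact hY2 _ (mul_mem hsc (inv_mem w.2)) hconst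

/-- The case of a group generated by quasisimple normal subgroups. -/
theorem inForm_of_quasisimple_generated [Finite G]
    (hgen : sSup {S : Subgroup G | S.Normal ∧ IsQuasisimple S} = ⊤)
    (hav : ∀ S : Subgroup G, S.Normal → IsQuasisimple S → SubdirectAvoids S (center S))
    (E : Subgroup G) (hE : E.Normal) (hEE : ⁅E, E⁆ = E) : InForm G E := by
  -- each quasisimple normal subgroup lies in the formation
  have hS : ∀ S : Subgroup G, S.Normal → IsQuasisimple S → InForm G S := by
    intro S hSn hSq
    refine inForm_of_avoids hSn ?_ (hav S hSn hSq)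
    rw [eq_top_iff, ← hgen]
    apply sSup_le
    rintro T ⟨hTn, hTq⟩
    rcases quasisimple_dichotomy hTn hTq hSn with h | h
    · exact h.trans le_sup_left
    · exact (commutator_eq_bot_iff_le_centralizer.mp h).trans le_sup_right
  -- finite joins
  have hfin : ∀ t : Set (Subgroup G), t.Finite →
      (∀ S ∈ t, S.Normal ∧ IsQuasisimple S) → (sSup t).Normal ∧ InForm G (sSup t : Subgroup G) := by
    intro t ht
    induction t, ht using Set.Finite.induction_on with
    | empty =>
      intro _
      rw [sSup_empty]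
      refine ⟨inferInstance, (InForm.refl G).of_surjective (1 : G →* (⊥ : Subgroup G)) ?_⟩
      intro y
      exact ⟨1, Subsingleton.elim _ _⟩
    | @insert S t _ _ ih =>
      intro hall
      obtain ⟨i1, i2⟩ := ih fun T hT => hall T (Set.mem_insert_of_mem _ hT)
      obtain ⟨hSn, hSq⟩ := hall S (Set.mem_insert _ _)
      rw [sSup_insert]
      refine ⟨inferInstance, ?_⟩
      rcases quasisimple_dichotomy hSn hSq i1 with h | h
      · rw [sup_eq_right.mpr h]
        exact i2
      · exact inForm_sup ((comm_bot_iff _ _).mp h) (hS S hSn hSq) i2 rfl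
  -- `E` is the join of the quasisimple normal subgroups it contains
  let t : Set (Subgroup G) := {S | (S.Normal ∧ IsQuasisimple S) ∧ S ≤ E}
  obtain ⟨t1, t2⟩ := hfin t (Set.toFinite _) fun S hS => hS.1
  have htE : sSup t ≤ E := sSup_le fun S hS => hS.2
  have htop : sSup t ⊔ centralizer (E : Set G) = ⊤ := by
    rw [eq_top_iff, ← hgen]
    apply sSup_le
    rintro T ⟨hTn, hTq⟩
    rcases quasisimple_dichotomy hTn hTq hE with h | h
    · exact (le_sSup (show T ∈ t from ⟨⟨hTn, hTq⟩, h⟩)).trans le_sup_left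
    · exact (commutator_eq_bot_iff_le_centralizer.mp h).trans le_sup_right
  have hEt : E ≤ sSup t := by
    rw [← hEE, commutator_le]
    intro a ha b hb
    have ha' : a ∈ sSup t ⊔ centralizer (E : Set G) := by rw [htop]; trivial
    have hb' : b ∈ sSup t ⊔ centralizer (E : Set G) := by rw [htop]; trivial
    rw [mem_sup_of_normal_left] at ha' hb'
    obtain ⟨l, hl, z, hz, rfl⟩ := ha'
    obtain ⟨l', hl', z', hz', rfl⟩ := hb'
    have hzE : z ∈ E := by
      have := mul_mem (inv_mem (htE hl)) ha
      rwa [inv_mul_cancel_left] at this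
    have hz'E : z' ∈ E := by
      have := mul_mem (inv_mem (htE hl')) hb
      rwa [inv_mul_cancel_left] at this
    have e1 : l' * z = z * l' := mem_centralizer_iff.mp hz l' (htE hl')
    have e2 : z' * z = z * z' := mem_centralizer_iff.mp hz z' hz'E
    have e3 : l * z' = z' * l := mem_centralizer_iff.mp hz' l (htE hl)
    have e4 : ⁅l * z, l' * z'⁆ = ⁅l, l'⁆ := by
      have h1 : l * z * (l' * z') = l * l' * z * z' := by
        calc l * z * (l' * z') = l * (z * l') * z' := by group
          _ = l * (l' * z) * z' := by rw [e1]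
          _ = l * l' * z * z' := by group
      have h2 : l' * z' * (l * z) = l' * l * z * z' := by
        calc l' * z' * (l * z) = l' * (z' * l) * z := by group
          _ = l' * (l * z') * z := by rw [e3]
          _ = l' * l * (z' * z) := by group
          _ = l' * l * (z * z') := by rw [e2]
          _ = l' * l * z * z' := by group
      have h3 : ⁅l * z, l' * z'⁆ = (l * z * (l' * z')) * (l' * z' * (l * z))⁻¹ := by
        rw [commutatorElement_def]; group
      rw [h3, h1, h2, commutatorElement_def]; group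
    rw [e4]
    exact commutator_le_left (sSup t) (sSup t) (commutator_mem_commutator hl hl')
  have hEq : E = sSup t := le_antisymm hEt htE
  rw [hEq]
  exact t2

theorem inForm_iff_image {G X : Type} [Group G] [Finite G] [Group X] :
    InForm G X ↔ ImageOfSubdirectPower G X := by
  constructor
  · intro h
    obtain ⟨-, ι, hι, Y, hY, hYf, ψ, θ, h1, h2, h3⟩ := qr_of_inForm h
    obtain ⟨n, ⟨e⟩⟩ := Finite.exists_equiv_fin ι
    let ev : Y →* (Fin n → G) := MonoidHom.pi fun j => ψ (e.symm j)
    have hker : ev.ker ≤ θ.ker := by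
      intro y hy
      apply h3
      intro i
      have h4 := congrFun (MonoidHom.mem_ker.mp hy) (e i)
      change ψ (e.symm (e i)) y = 1 at h4
      rwa [e.symm_apply_apply] at h4
    refine ⟨n, ev.range, ?_, ?_⟩
    · intro j g
      obtain ⟨y, hy⟩ := h1 (e.symm j) g
      exact ⟨ev y, ⟨y, rfl⟩, hy⟩
    · refine ⟨(QuotientGroup.lift ev.ker θ hker).comp
        (QuotientGroup.quotientKerEquivRange ev).symm.toMonoidHom, ?_⟩
      exact (QuotientGroup.lift_surjective_of_surjective _ θ h2 hker).comp
        (QuotientGroup.quotientKerEquivRange ev).symm.surjective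
  · rintro ⟨r, Y, h1, θ, h2⟩
    refine inForm_of_qr (fun j : Fin r => (Pi.evalMonoidHom (fun _ => G) j).comp Y.subtype) θ
      ?_ h2 ?_
    · intro j g
      obtain ⟨y, hy, hyg⟩ := h1 j g
      exact ⟨⟨y, hy⟩, hyg⟩
    · intro y hy
      have : y = 1 := Subtype.ext (funext hy)
      rw [this, map_one]

theorem condPerfect_of_conds {F : Formation} (h3 : CondQuasisimple F) (h4 : CondRest F) :
    CondPerfect F := by
  intro G _ hG hperf C hC hCu hCc E hE hEE
  have hfin := F.finite G hG
  by_cases hgen : sSup {S : Subgroup G | S.Normal ∧ IsQuasisimple S} = ⊤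
  · exact inForm_of_quasisimple_generated hgen (fun S hSn hSq => h3 G hG S hSn hSq) E hE hEE
  · exact inForm_iff_image.mpr (h4 G hG hperf C hC hCu hCc hgen E hE
      ((commutator_coe_eq_top_iff E).mpr hEE))

theorem classification' (F : Formation) :
    (∀ H : Formation, H.Sub F → H.NormallyClosed) ↔
      (CondAbelian F ∧ CondTower F ∧ CondQuasisimple F ∧ CondRest F) := by
  rw [all_sub_normallyClosed_iff]
  constructor
  · intro h
    refine ⟨condAbelian_of_prop0 h, condTower_of_prop0 h, ?_, ?_⟩
    · intro G _ hG S hSn _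
      exact subdirectAvoids_of_prop0 h (h G S hSn hG F hG) _ le_rfl
    · intro G _ hG _ C _ _ _ _ E hE _
      have hfin := F.finite G hG
      exact inForm_iff_image.mp (h G E hE hG)
  · rintro ⟨h1, h2, h3, h4⟩
    exact prop0_of_conds h1 ((condTower_iff F).mp h2) (condPerfect_of_conds h3 h4)

end Pool.Agent.H69
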