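import Pool.Agent.Lib.H69.Formation.Classes

/-!
The splitting lemma: a group with a nonabelian characteristically simple normal subgroup of
prime index.
-/

namespace Pool.Agent.H69

open Subgroup
open scoped commutatorElement

theorem mem_sup_centralizer {X : Type} [Group X] (K : Subgroup X) (x : X) :
    x ∈ K ⊔ centralizer (K : Set X) ↔ ∃ k ∈ K, ∃ c ∈ centralizer (K : Set X), k * c = x := by
  rw [← SetLike.mem_coe, coe_mul_of_right_le_normalizer_left K _
    (centralizer_le_normalizer (K : Set X)), Set.mem_mul]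
  rfl

theorem split_lemma {X : Type} [Group X] [Finite X] (F : Formation) (hα : Alpha F)
    {N U : Subgroup X} (hN : IsMinNormal N) (hna : ⁅N, N⁆ ≠ ⊥) (hNU : N ≤ U)
    (hp : (N.subgroupOf U).index.Prime)
    (hc : ∀ K : Subgroup U, ∀ _ : K.Normal, IsMinNormal K →
      F.mem (U ⧸ centralizer (K : Set U))) :
    U ≤ N ⊔ centralizer (N : Set X) := by
  have hNn := hN.1
  have hrel : ∀ B : Subgroup U, B.Normal → B ≤ N.subgroupOf U → RelN N (B.map U.subtype) := by
    intro B hB hBN
    refine ⟨?_, ?_⟩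
    · rintro _ ⟨b, hb, rfl⟩
      exact hBN hb
    · rintro n hn _ ⟨b, hb, rfl⟩
      exact ⟨⟨n, hNU hn⟩ * b * ⟨n, hNU hn⟩⁻¹, hB.conj_mem b hb _, rfl⟩
  have ha : ∀ B : Subgroup U, B.Normal → B ≤ N.subgroupOf U → ⁅B, B⁆ = ⊥ → B = ⊥ := by
    intro B hB hBN hBB
    have h1 := hN.abelian_eq_bot hna (hrel B hB hBN) (by
      rw [← map_commutator, hBB, Subgroup.map_bot])
    exact (Subgroup.map_eq_bot_iff_of_injective B U.subtype_injective).mp h1
  have h := sup_centralizer_eq_top (N.subgroupOf U) ha (by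
    intro K hK hKN
    have hKn := hK.1
    have hKna : ⁅K, K⁆ ≠ ⊥ := fun h => hK.2.1 (ha K hKn hKN h)
    have h1 := hN.le_sup_centralizer (hrel K hKn hKN)
    have h2 : N.subgroupOf U ≤ K ⊔ centralizer (K : Set U) := by
      intro n hn
      have h3 := h1 (show (n : X) ∈ N from hn)
      rw [mem_sup_centralizer] at h3
      obtain ⟨_, ⟨k, hk, rfl⟩, c, hc, hkc⟩ := h3
      have hcU : c ∈ U := by
        have := mul_mem (inv_mem k.2) n.2
        rw [← hkc] at this
        simpa using this
      have e : n = k * ⟨c, hcU⟩ := Subtype.ext hkc.symm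
      rw [e]
      refine mul_mem_sup hk ?_
      rw [mem_centralizer_iff]
      intro y hy
      exact Subtype.ext (mem_centralizer_iff.mp hc y ⟨y, hy, rfl⟩)
    have h3 : (K ⊔ centralizer (K : Set U)).index ∣ (N.subgroupOf U).index :=
      Subgroup.index_dvd_of_le h2
    rcases (Nat.dvd_prime hp).mp h3 with h4 | h4
    · exact Subgroup.index_eq_one.mp h4
    · exfalso
      obtain ⟨m1, m2⟩ := hK.monolith_quotient hKna
      apply hα _ (hc K hKn hK) _ m1 m2
      rw [index_map_quotient_centralizer, h4]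
      exact hp) (N.subgroupOf U) inferInstance le_rfl
  intro u hu
  have h1 : (⟨u, hu⟩ : U) ∈ N.subgroupOf U ⊔ centralizer (N.subgroupOf U : Set U) := by
    rw [h]; trivial
  rw [mem_sup_of_normal_left] at h1
  obtain ⟨n, hn, c, hc, hnc⟩ := h1
  have e : u = (n : X) * (c : X) := (congrArg Subtype.val hnc).symm
  rw [e]
  refine mul_mem_sup hn ?_
  rw [mem_centralizer_iff]
  intro y hy
  exact congrArg Subtype.val (mem_centralizer_iff.mp hc ⟨y, hNU hy⟩ hy)

end Pool.Agent.H69
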