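import Pool.Agent.Lib.H69.Formation.NecAbelian

/-!
First consequences of the conditions.
-/

namespace Pool.Agent.H69

open Subgroup
open scoped commutatorElement

theorem centralizer_monolith_eq_bot {P : Type} [Group P] {A : Subgroup P} (hA : IsMonolith A)
    (hna : ⁅A, A⁆ ≠ ⊥) : centralizer (A : Set P) = ⊥ := by
  have hAn := hA.1
  by_contra h
  have h4 := hA.2.2 _ inferInstance h
  exact hna (commutator_eq_bot_iff_le_centralizer.mpr h4)

theorem not_comm_iff {X : Type} [Group X] (A : Subgroup X) :
    (¬ ∀ a ∈ A, ∀ b ∈ A, a * b = b * a) ↔ ⁅A, A⁆ ≠ ⊥ := by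
  rw [Ne, comm_bot_iff]

theorem alpha_of_condTower {F : Formation} (h2 : CondTower' F) : Alpha F := by
  intro R _ hR S hS hSS hp
  have hfin := F.finite R hR
  have hSn := hS.1
  have hSm := hS.minNormal
  have hna : ⁅S, S⁆ ≠ ⊥ := by rw [hSS]; exact hS.2.1
  have hC := centralizer_monolith_eq_bot hS hna
  obtain ⟨m1, m2⟩ := hSm.monolith_quotient hna
  have hidx := index_map_quotient_centralizer S
  have hidx2 : (S ⊔ centralizer (S : Set R)).index = S.index := by rw [hC, sup_bot_eq]
  rw [hidx2] at hidx
  set P := R ⧸ centralizer (S : Set R) with hP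
  set T : Subgroup P := S.map (QuotientGroup.mk' (centralizer (S : Set R))) with hT
  have hTna : ⁅T, T⁆ ≠ ⊥ := by rw [m2]; exact m1.2.1
  have hTn := m1.1
  -- a minimal normal subgroup of `T`
  have hTtop : (⊤ : Subgroup T) ≠ ⊥ := by
    intro h
    apply m1.2.1
    refine (Subgroup.eq_bot_iff_forall T).mpr fun x hx => ?_
    have h5 : (⟨x, hx⟩ : T) ∈ (⊥ : Subgroup T) := by rw [← h]; trivial
    exact congrArg Subtype.val (mem_bot.mp h5)
  obtain ⟨K, hK, -⟩ := exists_minNormal (⊤ : Subgroup T) inferInstance hTtop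
  have hKn := hK.1
  obtain ⟨f, hf⟩ := h2 R hR S hSm ((not_comm_iff S).mpr hna) T hTn K hK
  have hKna := nonabelian_of_monolith m1 hTna hTn hK
  have hTperf : Group.IsPerfect T := Subgroup.isPerfect_iff.mpr m2
  have hQperf : Group.IsPerfect (T ⧸ centralizer (K : Set T)) := inferInstance
  have hQnt : ¬ Subsingleton (T ⧸ centralizer (K : Set T)) := by
    intro h
    have h5 : centralizer (K : Set T) = ⊤ := QuotientGroup.subgroup_eq_top_of_subsingleton _ h
    apply hKna
    rw [commutator_eq_bot_iff_le_centralizer, h5]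
    exact le_top
  by_cases hker : f.ker = ⊥
  · have hinj : Function.Injective f := (MonoidHom.ker_eq_bot_iff f).mp hker
    have hc1 : Nat.card P ≤ Nat.card (T ⧸ centralizer (K : Set T)) :=
      Nat.card_le_card_of_injective f hinj
    have hc2 : Nat.card (T ⧸ centralizer (K : Set T)) ≤ Nat.card T :=
      Nat.card_le_card_of_surjective _ (QuotientGroup.mk'_surjective (centralizer (K : Set T)))
    have hc3 := T.card_mul_index
    rw [hidx] at hc3
    have h5 := hp.two_le
    have h6 : 0 < Nat.card T := Nat.card_pos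
    nlinarith
  · have h5 : T ≤ f.ker := m1.2.2 _ inferInstance hker
    have h6 : _root_.commutator P ≤ T := index_prime_commutator_le (by rw [hidx]; exact hp)
    have h7 : _root_.commutator (T ⧸ centralizer (K : Set T)) = ⊥ := by
      rw [_root_.commutator_def, ← MonoidHom.range_eq_top.mpr hf, MonoidHom.range_eq_map,
        ← map_commutator, Subgroup.map_eq_bot_iff]
      exact h6.trans h5
    rw [Group.isPerfect_def] at hQperf
    rw [hQperf] at h7
    apply hQnt
    exact ⟨fun a b => by
      have ha : a ∈ (⊥ : Subgroup (T ⧸ centralizer (K : Set T))) := by rw [← h7]; trivial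
      have hb : b ∈ (⊥ : Subgroup (T ⧸ centralizer (K : Set T))) := by rw [← h7]; trivial
      rw [mem_bot] at ha hb
      rw [ha, hb]⟩

theorem splitProp_of_condTower {F : Formation} (h2 : CondTower' F) (X : Type) [Group X]
    (hX : F.mem X) : SplitProp X := by
  intro N U hN hna hU hNU hidx
  have hfin := F.finite X hX
  have hNn := hN.1
  obtain ⟨m1, m2⟩ := hN.monolith_quotient hna
  set C := centralizer (N : Set X) with hC
  have hCn : C.Normal := inferInstance
  have hTna : ⁅N.map (QuotientGroup.mk' C), N.map (QuotientGroup.mk' C)⁆ ≠ ⊥ := by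
    rw [m2]; exact m1.2.1
  have hUn : (U.map (QuotientGroup.mk' C)).Normal := hU.map _ (QuotientGroup.mk'_surjective _)
  have hrel : (N.map (QuotientGroup.mk' C)).relIndex (U.map (QuotientGroup.mk' C)) ∣
      N.relIndex U := by
    rw [Subgroup.relIndex_map_map, QuotientGroup.ker_mk']
    have e : U ⊔ C = U ⊔ (N ⊔ C) := by
      rw [← sup_assoc, sup_eq_left.mpr hNU]
    rw [e, Subgroup.relIndex_sup_right]
    exact Subgroup.relIndex_dvd_of_le_left U le_sup_left
  have hidx' : (N.relIndex U).Prime := hidx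
  rcases (Nat.dvd_prime hidx').mp hrel with h1 | h1
  · have h3 : U.map (QuotientGroup.mk' C) ≤ N.map (QuotientGroup.mk' C) :=
      Subgroup.relIndex_eq_one.mp h1
    have h4 := Subgroup.comap_mono (f := QuotientGroup.mk' C) h3
    rw [Subgroup.comap_map_eq, Subgroup.comap_map_eq, QuotientGroup.ker_mk'] at h4
    exact le_sup_left.trans h4
  · have h3 := split_lemma F (alpha_of_condTower h2) m1.minNormal hTna
      (Subgroup.map_mono hNU) (by
        change ((N.map (QuotientGroup.mk' C)).relIndex (U.map (QuotientGroup.mk' C))).Prime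
        rw [h1]; exact hidx')
      (fun K hKn hK => by
        obtain ⟨f, hf⟩ := h2 X hX N hN ((not_comm_iff N).mpr hna) _ hUn K hK
        exact F.mem_of_surjective f hf (F.quot X _ hX))
    rw [centralizer_monolith_eq_bot m1 hTna, sup_bot_eq] at h3
    have h4 := Subgroup.comap_mono (f := QuotientGroup.mk' C) h3
    rw [Subgroup.comap_map_eq, Subgroup.comap_map_eq, QuotientGroup.ker_mk'] at h4
    exact le_sup_left.trans h4

theorem centralAbelian_of_condAbelian {F : Formation} (h1 : CondAbelian F) (X : Type) [Group X]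
    (hX : F.mem X) : CentralAbelian X := by
  intro A hA hab
  exact h1 X hX A hA ((comm_bot_iff A A).mp hab)

/-- central sections of prime order give central elements of prime order -/
theorem exists_central {F : Formation} (h1 : CondAbelian F) (h2 : CondTower' F) {p : ℕ}
    (hp : p.Prime) (X : Type) [Group X] (hX : F.mem X) (h : CP p X) :
    ∃ z ∈ center X, z ≠ 1 ∧ z ^ p = 1 :=
  exists_central_of_CP (F := F) (n := Nat.card X + 1)
    (fun Y _ hY _ => splitProp_of_condTower h2 Y hY)
    (fun Y _ hY _ => centralAbelian_of_condAbelian h1 Y hY) hp X hX (Nat.lt_succ_self _) h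

theorem noCP_of_center_eq_bot {F : Formation} (h1 : CondAbelian F) (h2 : CondTower' F)
    (X : Type) [Group X] (hX : F.mem X) (hc : center X = ⊥) {p : ℕ} (hp : p.Prime) :
    ¬ CP p X := by
  intro h
  obtain ⟨z, hz, hz1, -⟩ := exists_central h1 h2 hp X hX h
  rw [hc, mem_bot] at hz
  exact hz1 hz

/-- Normal subgroups of groups without abelian chief factors are perfect. -/
theorem perfect_of_noCP {F : Formation} (h1 : CondAbelian F) (Q : Type) [Group Q]
    (hQ : F.mem Q) (hno : ∀ p : ℕ, p.Prime → ¬ CP p Q) (B : Subgroup Q) (hB : B.Normal) :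
    ⁅B, B⁆ = B := by
  have hfin := F.finite Q hQ
  by_contra hne
  have hle : ⁅B, B⁆ ≤ B := commutator_le_left B B
  have hn : (⁅B, B⁆).Normal := inferInstance
  let W : Subgroup (Q ⧸ ⁅B, B⁆) := B.map (QuotientGroup.mk' ⁅B, B⁆)
  have hWn : W.Normal := hB.map _ (QuotientGroup.mk'_surjective _)
  have hW : W ≠ ⊥ := by
    intro h
    rw [Subgroup.map_eq_bot_iff, QuotientGroup.ker_mk'] at h
    exact hne (le_antisymm hle h)
  have hWab : ⁅W, W⁆ = ⊥ := by
    rw [← map_commutator, Subgroup.map_eq_bot_iff, QuotientGroup.ker_mk']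
  obtain ⟨A, hA, hAW⟩ := exists_minNormal W hWn hW
  have hAab : ⁅A, A⁆ = ⊥ := by
    rw [eq_bot_iff, ← hWab]
    exact commutator_mono hAW hAW
  have hAc := centralAbelian_of_condAbelian h1 _ (F.quot Q _ hQ) A hA hAab
  obtain ⟨p, hp, hexp, -, v, hv, hv1⟩ := minNormal_pow_eq_one hA hAab
  apply hno p hp
  refine CP.of_surjective (QuotientGroup.mk' ⁅B, B⁆) (QuotientGroup.mk'_surjective _) ?_
  refine ⟨⊥, inferInstance, v, hv1, ?_, ?_⟩
  · rw [mem_bot]; exact hexp v hv
  · intro x
    rw [mem_bot, commutatorElement_eq_one_iff_mul_comm]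
    exact (mem_center_iff.mp (hAc hv) x).symm

end Pool.Agent.H69
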