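import Pool.Agent.Lib.H69.Formation.Suff1

/-!
The case of a central monolith.
-/

namespace Pool.Agent.H69

open Subgroup
open scoped commutatorElement

theorem upper_commutes {G : Type} [Group G] (E : Subgroup G) (hE : ⁅E, E⁆ = E)
    (n : ℕ) : ⁅Subgroup.upperCentralSeries G n, E⁆ = ⊥ := by
  induction n with
  | zero => rw [Subgroup.upperCentralSeries_zero, commutator_bot_left]
  | succ n ih =>
    have h1 : ⁅Subgroup.upperCentralSeries G (n + 1), E⁆ ≤ Subgroup.upperCentralSeries G n := by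
      rw [commutator_le]
      intro x hx y _
      exact (Subgroup.mem_upperCentralSeries_succ_iff.mp hx) y
    have h2 : ⁅⁅Subgroup.upperCentralSeries G (n + 1), E⁆, E⁆ = ⊥ := by
      rw [eq_bot_iff, ← ih]
      exact commutator_mono h1 le_rfl
    have h3 : ⁅⁅E, Subgroup.upperCentralSeries G (n + 1)⁆, E⁆ = ⊥ := by
      rw [commutator_comm E]; exact h2
    have h4 := commutator_commutator_eq_bot_of_rotate h3 h2
    rw [hE] at h4
    rw [commutator_comm]
    exact h4

theorem upper_nilpotent {G : Type} [Group G] (n : ℕ) :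
    Group.IsNilpotent (Subgroup.upperCentralSeries G n) := by
  rw [Subgroup.nilpotent_iff_finite_ascending_central_series]
  refine ⟨n, fun i => (Subgroup.upperCentralSeries G i).subgroupOf
    (Subgroup.upperCentralSeries G n), ⟨?_, ?_⟩, ?_⟩
  · change (Subgroup.upperCentralSeries G 0).subgroupOf _ = ⊥
    rw [Subgroup.upperCentralSeries_zero, Subgroup.bot_subgroupOf]
  · intro x i hx g
    rw [mem_subgroupOf] at hx ⊢
    exact (Subgroup.mem_upperCentralSeries_succ_iff.mp hx) g
  · exact Subgroup.subgroupOf_self _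

theorem exists_hypercenter (G : Type) [Group G] [Finite G] :
    ∃ n, center (G ⧸ Subgroup.upperCentralSeries G n) = ⊥ := by
  -- stabilisation
  have hst : ∃ n, Subgroup.upperCentralSeries G n = Subgroup.upperCentralSeries G (n + 1) := by
    by_contra hcon
    push Not at hcon
    have hmono : StrictMono (Subgroup.upperCentralSeries G) := by
      apply strictMono_nat_of_lt_succ
      intro n
      exact lt_of_le_of_ne (Subgroup.upperCentralSeries_mono G (Nat.le_succ n)) (hcon n)
    exact not_injective_infinite_finite _ hmono.injective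
  obtain ⟨n, hn⟩ := hst
  refine ⟨n, ?_⟩
  rw [eq_bot_iff]
  intro x hx
  obtain ⟨x, rfl⟩ := QuotientGroup.mk'_surjective _ x
  rw [mem_bot, QuotientGroup.mk'_apply, QuotientGroup.eq_one_iff, hn,
    Subgroup.mem_upperCentralSeries_succ_iff]
  intro y
  rw [← QuotientGroup.eq_one_iff, ← QuotientGroup.mk'_apply, map_commutatorElement,
    commutatorElement_eq_one_iff_mul_comm]
  exact (mem_center_iff.mp hx _).symm

/-- Perfect part of a normal subgroup modulo `Z`. -/
theorem exists_perfect_part {F : Formation} (h1 : CondAbelian F) {G : Type} [Group G]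
    (hG : F.mem G) (Z : Subgroup G) [Z.Normal] (hno : ∀ p : ℕ, p.Prime → ¬ CP p (G ⧸ Z))
    (N : Subgroup G) (hN : N.Normal) :
    ∃ E : Subgroup G, E.Normal ∧ E ≤ N ∧ E ⊔ Z = N ⊔ Z ∧ ⁅E, E⁆ = E := by
  have hfin := F.finite G hG
  let S : Set (Subgroup G) := {E | E.Normal ∧ E ≤ N ∧ E ⊔ Z = N ⊔ Z}
  obtain ⟨E, hE⟩ := (Set.toFinite S).exists_minimal ⟨N, hN, le_rfl, rfl⟩
  obtain ⟨e1, e2, e3⟩ := hE.prop
  refine ⟨E, e1, e2, e3, ?_⟩
  have hle : ⁅E, E⁆ ≤ E := commutator_le_left E E
  refine le_antisymm hle (hE.le_of_le ⟨inferInstance, hle.trans e2, ?_⟩ hle)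
  have h4 := perfect_of_noCP h1 (G ⧸ Z) (F.quot G Z hG) hno (E.map (QuotientGroup.mk' Z))
    (e1.map _ (QuotientGroup.mk'_surjective _))
  rw [← map_commutator] at h4
  have h5 := congrArg (Subgroup.comap (QuotientGroup.mk' Z)) h4
  rw [Subgroup.comap_map_eq, Subgroup.comap_map_eq, QuotientGroup.ker_mk'] at h5
  rw [h5, e3]

theorem inForm_prod {G A B : Type} [Group G] [Group A] [Group B] (hA : InForm G A)
    (hB : InForm G B) : InForm G (A × B) := fun F hF => F.mem_prod (hA F hF) (hB F hF)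

theorem inForm_quot_nextB {G : Type} [Group G] (V : Subgroup G) [V.Normal]
    (D : Subgroup (nextB V)) [D.Normal] : InForm G (nextB V ⧸ D) :=
  fun F hF => F.quot _ D (nextB_mem F hF V)

theorem pair_mem_nextB {G : Type} [Group G] (V : Subgroup G) [V.Normal] {v w : G} (hv : v ∈ V)
    (hw : w ∈ V) : (v, w) ∈ nextB V := mul_mem (inv_mem hv) hw

theorem diag_mem_nextB {G : Type} [Group G] (V : Subgroup G) [V.Normal] (g : G) :
    (g, g) ∈ nextB V := by
  rw [mem_nextB]; simp [one_mem]

/-- the nilpotent part -/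
theorem inForm_nilpotent_part {G : Type} [Group G] [Finite G] (Z D : Subgroup G) [Z.Normal]
    [D.Normal] (hZnil : Group.IsNilpotent Z) (hZD : ∀ z ∈ Z, ∀ d ∈ D, z * d = d * z)
    (htop : Z ⊔ D = ⊤) (M : Subgroup G) (hMZ : M ≤ Z) : InForm G M := by
  have hDn : (diagSub Z D).Normal := diagSub_normal Z D hZD
  -- `Z × Z` maps onto the quotient
  let ψ : Z × Z →* (nextB Z ⧸ diagSub Z D) :=
    (QuotientGroup.mk' (diagSub Z D)).comp
      { toFun := fun q => ⟨(q.1, q.2), pair_mem_nextB Z q.1.2 q.2.2⟩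
        map_one' := rfl
        map_mul' := fun _ _ => rfl }
  have hψ : Function.Surjective ψ := by
    intro q
    obtain ⟨⟨⟨a, b⟩, hab⟩, rfl⟩ := QuotientGroup.mk'_surjective _ q
    have ha : a ∈ Z ⊔ D := by rw [htop]; trivial
    rw [mem_sup_of_normal_left] at ha
    obtain ⟨z, hz, d, hd, rfl⟩ := ha
    have hzz : (z * d)⁻¹ * b ∈ Z := hab
    obtain ⟨z', hz', rfl⟩ : ∃ z' ∈ Z, b = (z * d) * z' := ⟨_, hzz, by group⟩
    refine ⟨(⟨z, hz⟩, ⟨z * z', mul_mem hz hz'⟩), ?_⟩
    change QuotientGroup.mk' (diagSub Z D) _ = QuotientGroup.mk' (diagSub Z D) _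
    rw [QuotientGroup.mk'_apply, QuotientGroup.mk'_apply, QuotientGroup.eq]
    have e : ((z, z * z')⁻¹ * (z * d, z * d * z') : G × G) = (d, d) := by
      refine Prod.ext ?_ ?_
      · change z⁻¹ * (z * d) = d
        group
      · change (z * z')⁻¹ * (z * d * z') = d
        have := hZD z' hz' d hd
        calc (z * z')⁻¹ * (z * d * z') = z'⁻¹ * (d * z') := by group
          _ = z'⁻¹ * (z' * d) := by rw [this]
          _ = d := by group
    refine ⟨?_, ?_⟩
    · change ((z, z * z')⁻¹ * (z * d, z * d * z') : G × G).1 ∈ D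
      rw [e]; exact hd
    · change ((z, z * z')⁻¹ * (z * d, z * d * z') : G × G).2 =
        ((z, z * z')⁻¹ * (z * d, z * d * z') : G × G).1
      rw [e]
  have hnil : Group.IsNilpotent (nextB Z ⧸ diagSub Z D) := Group.nilpotent_of_surjective ψ hψ
  let ι : M →* (nextB Z ⧸ diagSub Z D) :=
    (QuotientGroup.mk' (diagSub Z D)).comp
      { toFun := fun m => ⟨(m, 1), pair_mem_nextB Z (hMZ m.2) (one_mem Z)⟩
        map_one' := rfl
        map_mul' := fun x y => Subtype.ext (Prod.ext rfl (mul_one 1).symm) }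
  have hι : Function.Injective ι := by
    rw [← MonoidHom.ker_eq_bot_iff, eq_bot_iff]
    intro m hm
    rw [MonoidHom.mem_ker] at hm
    change QuotientGroup.mk' (diagSub Z D) _ = 1 at hm
    rw [QuotientGroup.mk'_apply, QuotientGroup.eq_one_iff] at hm
    have h2 : (1 : G) = m := hm.2
    exact Subtype.ext h2.symm
  have h1 : InForm (nextB Z ⧸ diagSub Z D) ι.range := inForm_of_nilpotent _ _
  have h2 : InForm G ι.range := (inForm_quot_nextB Z (diagSub Z D)).trans h1
  exact h2.of_surjective (MonoidHom.ofInjective hι).symm.toMonoidHom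
    (MonoidHom.ofInjective hι).symm.surjective

/-- the perfect part -/
theorem inForm_perfect_part {F : Formation} (h3 : CondPerfect F) {G : Type} [Group G]
    (hG : F.mem G) (Z D A : Subgroup G) [Z.Normal]
    [D.Normal] (hZD : ∀ z ∈ Z, ∀ d ∈ D, z * d = d * z)
    (htop : Z ⊔ D = ⊤) (hc : center (G ⧸ Z) = ⊥) (hDD : ⁅D, D⁆ = D)
    (hA : IsMonolith A) (hAc : A ≤ center G) (E : Subgroup G) (hE : E.Normal)
    (hED : E ≤ D) (hEE : ⁅E, E⁆ = E) (hE0 : E ≠ ⊥) : InForm G E := by
  have hfin := F.finite G hG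
  have hAn := hA.1
  have hD0 : D ≠ ⊥ := fun h => hE0 (le_bot_iff.mp (h ▸ hED))
  have hAD : A ≤ D := hA.2.2 D inferInstance hD0
  have hcent : ∀ x, (∀ y, ⁅x, y⁆ ∈ Z) → x ∈ Z := by
    intro x hx
    have h1 : QuotientGroup.mk' Z x ∈ center (G ⧸ Z) := by
      apply mem_center_of_comm
      intro y
      obtain ⟨y, rfl⟩ := QuotientGroup.mk'_surjective _ y
      rw [← map_commutatorElement, QuotientGroup.mk'_apply, QuotientGroup.eq_one_iff]
      exact hx y
    rw [hc, mem_bot, QuotientGroup.mk'_apply, QuotientGroup.eq_one_iff] at h1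
    exact h1
  have hAZ : A ≤ Z := by
    intro a ha
    apply hcent
    intro y
    have : ⁅a, y⁆ = 1 := by
      rw [commutatorElement_eq_one_iff_mul_comm]
      exact (mem_center_iff.mp (hAc ha) y).symm
    rw [this]
    exact one_mem Z
  have hCDZ : ∀ x, (∀ d ∈ D, x * d = d * x) → x ∈ Z := by
    intro x hx
    apply hcent
    intro y
    have hy : y ∈ Z ⊔ D := by rw [htop]; trivial
    rw [mem_sup_of_normal_left] at hy
    obtain ⟨z, hz, d, hd, rfl⟩ := hy
    have e : ⁅x, z * d⁆ = (x * z * x⁻¹) * (x * d * x⁻¹ * d⁻¹) * z⁻¹ := by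
      rw [commutatorElement_def]; group
    have e2 : x * d * x⁻¹ * d⁻¹ = 1 := by rw [hx d hd]; group
    rw [e, e2, mul_one]
    exact mul_mem ((inferInstance : Z.Normal).conj_mem z hz x) (inv_mem hz)
  have hDn : (diagSub D Z).Normal := diagSub_normal D Z (fun d hd z hz => (hZD z hz d hd).symm)
  let π := QuotientGroup.mk' (diagSub D Z)
  have hπ : ∀ y, π y = 1 ↔ y ∈ diagSub D Z := by
    intro y
    change QuotientGroup.mk' (diagSub D Z) y = 1 ↔ _
    rw [QuotientGroup.mk'_apply, QuotientGroup.eq_one_iff]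
  have hπs : Function.Surjective π := QuotientGroup.mk'_surjective _
  have hπk : ∀ B : Subgroup (nextB D ⧸ diagSub D Z), ∀ y ∈ diagSub D Z, y ∈ B.comap π := by
    intro B y hy
    rw [mem_comap, (hπ y).mpr hy]
    exact one_mem B
  -- the quotient is perfect
  let ψ : D × D →* (nextB D ⧸ diagSub D Z) :=
    π.comp
      { toFun := fun q => ⟨(q.1, q.2), pair_mem_nextB D q.1.2 q.2.2⟩
        map_one' := rfl
        map_mul' := fun _ _ => rfl }
  have hψ : Function.Surjective ψ := by
    intro q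
    obtain ⟨⟨⟨a, b⟩, hab⟩, rfl⟩ := QuotientGroup.mk'_surjective _ q
    have ha : a ∈ Z ⊔ D := by rw [htop]; trivial
    rw [mem_sup_of_normal_left] at ha
    obtain ⟨z, hz, d, hd, rfl⟩ := ha
    have hzz : (z * d)⁻¹ * b ∈ D := hab
    obtain ⟨d', hd', rfl⟩ : ∃ d' ∈ D, b = (z * d) * d' := ⟨_, hzz, by group⟩
    refine ⟨(⟨d, hd⟩, ⟨d * d', mul_mem hd hd'⟩), ?_⟩
    change QuotientGroup.mk' (diagSub D Z) _ = QuotientGroup.mk' (diagSub D Z) _
    rw [QuotientGroup.mk'_apply, QuotientGroup.mk'_apply, QuotientGroup.eq]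
    have e : ((d, d * d')⁻¹ * (z * d, z * d * d') : G × G) = (z, z) := by
      refine Prod.ext ?_ ?_
      · change d⁻¹ * (z * d) = z
        rw [hZD z hz d hd]; group
      · change (d * d')⁻¹ * (z * d * d') = z
        have := hZD z hz (d * d') (mul_mem hd hd')
        rw [mul_assoc z, this]; group
    refine ⟨?_, ?_⟩
    · change ((d, d * d')⁻¹ * (z * d, z * d * d') : G × G).1 ∈ Z
      rw [e]; exact hz
    · change ((d, d * d')⁻¹ * (z * d, z * d * d') : G × G).2 =
        ((d, d * d')⁻¹ * (z * d, z * d * d') : G × G).1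
      rw [e]
  have hDperf : Group.IsPerfect D := Subgroup.isPerfect_iff.mpr hDD
  have hDDperf : Group.IsPerfect (D × D) := by
    rw [Group.isPerfect_def, eq_top_iff]
    rintro ⟨a, b⟩ -
    have ha : a ∈ _root_.commutator D := by rw [hDperf.commutator_eq_top]; trivial
    have hb : b ∈ _root_.commutator D := by rw [hDperf.commutator_eq_top]; trivial
    have h1 : (a, (1 : D)) ∈ _root_.commutator (D × D) := by
      have h := Subgroup.mem_map_of_mem (MonoidHom.inl D D) ha
      rw [_root_.commutator_def, map_commutator] at h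
      exact commutator_mono le_top le_top h
    have h2 : ((1 : D), b) ∈ _root_.commutator (D × D) := by
      have h := Subgroup.mem_map_of_mem (MonoidHom.inr D D) hb
      rw [_root_.commutator_def, map_commutator] at h
      exact commutator_mono le_top le_top h
    have e : ((a, b) : D × D) = (a, 1) * (1, b) := by simp
    rw [e]
    exact mul_mem h1 h2
  have hQperf : Group.IsPerfect (nextB D ⧸ diagSub D Z) := Group.IsPerfect.ofSurjective hψ
  -- embedding of subgroups of `D`
  have hemb : ∀ T : Subgroup G, T ≤ D → ∃ ι : T →* (nextB D ⧸ diagSub D Z),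
      Function.Injective ι ∧ ∀ (t : T) (ht : ((t : G), (1 : G)) ∈ nextB D), ι t = π ⟨(t, 1), ht⟩ := by
    intro T hT
    refine ⟨π.comp
      { toFun := fun m => ⟨(m, 1), pair_mem_nextB D (hT m.2) (one_mem D)⟩
        map_one' := rfl
        map_mul' := fun x y => Subtype.ext (Prod.ext rfl (mul_one 1).symm) }, ?_, ?_⟩
    · rw [← MonoidHom.ker_eq_bot_iff, eq_bot_iff]
      intro m hm
      rw [MonoidHom.mem_ker] at hm
      change π _ = 1 at hm
      rw [hπ] at hm
      have h2 : (1 : G) = m := hm.2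
      exact Subtype.ext h2.symm
    · intro t ht
      rfl
  have hembn : ∀ T : Subgroup G, T.Normal → ∀ hT : T ≤ D, ∀ ι : T →* (nextB D ⧸ diagSub D Z),
      (∀ (t : T) (ht : ((t : G), (1 : G)) ∈ nextB D), ι t = π ⟨(t, 1), ht⟩) →
      ι.range.Normal := by
    intro T hTn hT ι hι
    constructor
    rintro _ ⟨t, rfl⟩ g
    obtain ⟨y, rfl⟩ := hπs g
    refine ⟨⟨y.1.1 * t * (y.1.1)⁻¹, hTn.conj_mem t t.2 _⟩, ?_⟩
    have ht : ((t : G), (1 : G)) ∈ nextB D := pair_mem_nextB D (hT t.2) (one_mem D)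
    have ht' : ((y.1.1 * t * (y.1.1)⁻¹ : G), (1 : G)) ∈ nextB D :=
      pair_mem_nextB D (hT (hTn.conj_mem t t.2 _)) (one_mem D)
    rw [hι t ht, hι _ ht', ← map_mul, ← map_inv, ← map_mul]
    congr 1
    apply Subtype.ext
    refine Prod.ext rfl ?_
    change (1 : G) = y.1.2 * 1 * (y.1.2)⁻¹
    group
  -- the monolith
  obtain ⟨ιA, hιA, hιA'⟩ := hemb A hAD
  have hAn' := hembn A hAn hAD ιA hιA'
  have hA0' : ιA.range ≠ ⊥ := by
    intro h
    apply hA.2.1
    rw [MonoidHom.range_eq_bot_iff] at h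
    refine (Subgroup.eq_bot_iff_forall A).mpr fun x hx => ?_
    have h5 : ιA ⟨x, hx⟩ = ιA 1 := by rw [h]; rfl
    exact congrArg Subtype.val (hιA h5)
  have hAmono : IsMonolith ιA.range := by
    refine ⟨hAn', hA0', ?_⟩
    intro B hB hB0
    have hB'n : (B.comap π).Normal := hB.comap _
    -- an element outside of the diagonal
    have hex : ∃ y ∈ B.comap π, y ∉ diagSub D Z := by
      by_contra hcon
      push Not at hcon
      apply hB0
      rw [eq_bot_iff]
      intro b hb
      obtain ⟨y, rfl⟩ := hπs b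
      rw [mem_bot, hπ]
      exact hcon y hb
    obtain ⟨y, hy, hyd⟩ := hex
    -- first and second slices
    let B1 : Subgroup G :=
      { carrier := {x | ∃ h : (x, (1 : G)) ∈ nextB D, (⟨(x, 1), h⟩ : nextB D) ∈ B.comap π}
        one_mem' := ⟨one_mem _, one_mem (B.comap π)⟩
        mul_mem' := by
          rintro a b ⟨ha, ha'⟩ ⟨hb, hb'⟩
          have h6 := mul_mem ha' hb'
          have e : (⟨(a, 1), ha⟩ * ⟨(b, 1), hb⟩ : nextB D) =
            ⟨(a * b, 1), by have := mul_mem ha hb; simpa using this⟩ :=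
            Subtype.ext (Prod.ext rfl (mul_one 1))
          rw [e] at h6
          exact ⟨_, h6⟩
        inv_mem' := by
          rintro a ⟨ha, ha'⟩
          have h6 := inv_mem ha'
          have e : (⟨(a, 1), ha⟩⁻¹ : nextB D) =
            ⟨(a⁻¹, 1), by have := inv_mem ha; simpa using this⟩ :=
            Subtype.ext (Prod.ext rfl inv_one)
          rw [e] at h6
          exact ⟨_, h6⟩ }
    let B2 : Subgroup G :=
      { carrier := {x | ∃ h : ((1 : G), x) ∈ nextB D, (⟨(1, x), h⟩ : nextB D) ∈ B.comap π}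
        one_mem' := ⟨one_mem _, one_mem (B.comap π)⟩
        mul_mem' := by
          rintro a b ⟨ha, ha'⟩ ⟨hb, hb'⟩
          have h6 := mul_mem ha' hb'
          have e : (⟨(1, a), ha⟩ * ⟨(1, b), hb⟩ : nextB D) =
            ⟨(1, a * b), by have := mul_mem ha hb; simpa using this⟩ :=
            Subtype.ext (Prod.ext (mul_one 1) rfl)
          rw [e] at h6
          exact ⟨_, h6⟩
        inv_mem' := by
          rintro a ⟨ha, ha'⟩
          have h6 := inv_mem ha'
          have e : (⟨(1, a), ha⟩⁻¹ : nextB D) =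
            ⟨(1, a⁻¹), by have := inv_mem ha; simpa using this⟩ :=
            Subtype.ext (Prod.ext inv_one rfl)
          rw [e] at h6
          exact ⟨_, h6⟩ }
    have hB1n : B1.Normal := by
      constructor
      rintro x ⟨hx, hx'⟩ g
      have h6 := hB'n.conj_mem _ hx' ⟨(g, g), diag_mem_nextB D g⟩
      have e : (⟨(g, g), diag_mem_nextB D g⟩ * ⟨(x, 1), hx⟩ *
        ⟨(g, g), diag_mem_nextB D g⟩⁻¹ : nextB D) =
        ⟨(g * x * g⁻¹, 1), by
          have h7 : x ∈ D := by
            have h8 : x⁻¹ * 1 ∈ D := hx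
            rw [mul_one] at h8
            simpa using inv_mem h8
          exact pair_mem_nextB D ((inferInstance : D.Normal).conj_mem x h7 g) (one_mem D)⟩ := by
        apply Subtype.ext
        refine Prod.ext rfl ?_
        change g * 1 * g⁻¹ = 1
        group
      rw [e] at h6
      exact ⟨_, h6⟩
    have hB2n : B2.Normal := by
      constructor
      rintro x ⟨hx, hx'⟩ g
      have h6 := hB'n.conj_mem _ hx' ⟨(g, g), diag_mem_nextB D g⟩
      have e : (⟨(g, g), diag_mem_nextB D g⟩ * ⟨(1, x), hx⟩ *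
        ⟨(g, g), diag_mem_nextB D g⟩⁻¹ : nextB D) =
        ⟨(1, g * x * g⁻¹), by
          have h7 : x ∈ D := by
            have h8 : (1 : G)⁻¹ * x ∈ D := hx
            rwa [inv_one, one_mul] at h8
          exact pair_mem_nextB D (one_mem D) ((inferInstance : D.Normal).conj_mem x h7 g)⟩ := by
        apply Subtype.ext
        refine Prod.ext ?_ rfl
        change g * 1 * g⁻¹ = 1
        group
      rw [e] at h6
      exact ⟨_, h6⟩
    -- if `A ≤ B1` we are done
    have hfinish : A ≤ B1 → ιA.range ≤ B := by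
      rintro hAB _ ⟨a, rfl⟩
      obtain ⟨h6, h7⟩ := hAB a.2
      rw [hιA' a h6]
      exact h7
    by_cases hb1 : B1 = ⊥
    · by_cases hb2 : B2 = ⊥
      · exfalso
        -- both coordinates of `y` centralise `D`
        have c1 : ∀ d ∈ D, y.1.1 * d = d * y.1.1 := by
          intro d hd
          have hd' : (d, (1 : G)) ∈ nextB D := pair_mem_nextB D hd (one_mem D)
          have h6 : ⁅y, (⟨(d, 1), hd'⟩ : nextB D)⁆ ∈ B.comap π := by
            have e : ⁅y, (⟨(d, 1), hd'⟩ : nextB D)⁆ =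
              y * (⟨(d, 1), hd'⟩ * y⁻¹ * ⟨(d, 1), hd'⟩⁻¹) := by
              rw [commutatorElement_def]; group
            rw [e]
            exact mul_mem hy (hB'n.conj_mem _ (inv_mem hy) _)
          have e : ⁅y, (⟨(d, 1), hd'⟩ : nextB D)⁆ = ⟨(⁅y.1.1, d⁆, 1), by
              have h7 := (⁅y, (⟨(d, 1), hd'⟩ : nextB D)⁆).2
              have e' : ((⁅y, (⟨(d, 1), hd'⟩ : nextB D)⁆ : nextB D) : G × G) =
                (⁅y.1.1, d⁆, 1) := by
                refine Prod.ext rfl ?_
                change ⁅y.1.2, (1 : G)⁆ = 1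
                exact commutatorElement_one_right _
              rwa [e'] at h7⟩ := by
            apply Subtype.ext
            refine Prod.ext rfl ?_
            change ⁅y.1.2, (1 : G)⁆ = 1
            exact commutatorElement_one_right _
          rw [e] at h6
          have h7 : ⁅y.1.1, d⁆ ∈ B1 := ⟨_, h6⟩
          rw [hb1, mem_bot, commutatorElement_eq_one_iff_mul_comm] at h7
          exact h7
        have hy1 : y.1.1 ∈ Z := hCDZ _ c1
        -- the second slice contains `y.1⁻¹ y.2`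
        have hdiag : (⟨(y.1.1, y.1.1), diag_mem_nextB D _⟩ : nextB D) ∈ B.comap π :=
          hπk B _ ⟨hy1, rfl⟩
        have h6 := mul_mem (inv_mem hdiag) hy
        have e : ((⟨(y.1.1, y.1.1), diag_mem_nextB D _⟩ : nextB D)⁻¹ * y) =
          ⟨(1, y.1.1⁻¹ * y.1.2), pair_mem_nextB D (one_mem D) y.2⟩ := by
          apply Subtype.ext
          refine Prod.ext ?_ rfl
          change y.1.1⁻¹ * y.1.1 = 1
          group
        rw [e] at h6
        have h7 : y.1.1⁻¹ * y.1.2 ∈ B2 := ⟨_, h6⟩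
        rw [hb2, mem_bot, inv_mul_eq_one] at h7
        exact hyd ⟨hy1, h7.symm⟩
      · -- `A ≤ B2`
        apply hfinish
        intro a ha
        obtain ⟨h6, h7⟩ := hA.2.2 B2 hB2n hb2 ha
        have ha1 : (a, (1 : G)) ∈ nextB D := pair_mem_nextB D (hAD ha) (one_mem D)
        refine ⟨ha1, ?_⟩
        have hdiag : (⟨(a, a), diag_mem_nextB D _⟩ : nextB D) ∈ B.comap π :=
          hπk B _ ⟨hAZ ha, rfl⟩
        have h8 := mul_mem hdiag (inv_mem h7)
        have e : ((⟨(a, a), diag_mem_nextB D _⟩ : nextB D) * (⟨(1, a), h6⟩)⁻¹) =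
          ⟨(a, 1), ha1⟩ := by
          apply Subtype.ext
          refine Prod.ext ?_ ?_
          · change a * 1⁻¹ = a
            group
          · change a * a⁻¹ = 1
            group
        rw [e] at h8
        exact h8
    · exact hfinish (hA.2.2 B1 hB1n hb1)
  have hAcent : ιA.range ≤ center (nextB D ⧸ diagSub D Z) := by
    rintro _ ⟨a, rfl⟩
    rw [mem_center_iff]
    intro g
    obtain ⟨y, rfl⟩ := hπs g
    have ha : ((a : G), (1 : G)) ∈ nextB D := pair_mem_nextB D (hAD a.2) (one_mem D)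
    rw [hιA' a ha, ← map_mul, ← map_mul]
    congr 1
    apply Subtype.ext
    refine Prod.ext ?_ ?_
    · exact mem_center_iff.mp (hAc a.2) _
    · change y.1.2 * 1 = 1 * y.1.2
      group
  obtain ⟨ιE, hιE, hιE'⟩ := hemb E hED
  have hEn' := hembn E hE hED ιE hιE'
  have hEperf : Group.IsPerfect E := Subgroup.isPerfect_iff.mpr hEE
  have hEE' : ⁅ιE.range, ιE.range⁆ = ιE.range :=
    Subgroup.isPerfect_iff.mp (Group.IsPerfect.range ιE)
  have hQF : F.mem (nextB D ⧸ diagSub D Z) := F.quot _ _ (nextB_mem F hG D)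
  have h4 := h3 _ hQF hQperf.commutator_eq_top ιA.range hAmono.minNormal
    (fun B hB => hB.2.2 _ hAn' (hAmono.2.2 B hB.1 hB.2.1) hA0' |>.symm) hAcent
    ιE.range hEn' hEE'
  have h5 : InForm G ιE.range := (inForm_quot_nextB D (diagSub D Z)).trans h4
  exact h5.of_surjective (MonoidHom.ofInjective hιE).symm.toMonoidHom
    (MonoidHom.ofInjective hιE).symm.surjective

/-- The case of a central monolith. -/
theorem inForm_of_central_monolith {F : Formation} (h1 : CondAbelian F) (h2 : CondTower' F)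
    (h3 : CondPerfect F) {G : Type} [Group G] (hG : F.mem G) {A : Subgroup G}
    (hA : IsMonolith A) (hAc : A ≤ center G) (N : Subgroup G) (hN : N.Normal) :
    InForm G N := by
  have hfin := F.finite G hG
  obtain ⟨n, hn⟩ := exists_hypercenter G
  set Z := Subgroup.upperCentralSeries G n with hZ
  have hZn : Z.Normal := inferInstance
  have hno : ∀ p : ℕ, p.Prime → ¬ CP p (G ⧸ Z) := fun p hp =>
    noCP_of_center_eq_bot h1 h2 _ (F.quot G Z hG) hn hp
  obtain ⟨D, hDn, -, hDZ, hDD⟩ := exists_perfect_part h1 hG Z hno ⊤ inferInstance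
  obtain ⟨E, hEn, hEN, hEZ, hEE⟩ := exists_perfect_part h1 hG Z hno N hN
  rw [top_sup_eq] at hDZ
  have htop : Z ⊔ D = ⊤ := by rw [sup_comm]; exact hDZ
  have hZD : ∀ z ∈ Z, ∀ d ∈ D, z * d = d * z := (comm_bot_iff Z D).mp (upper_commutes D hDD n)
  have hZE : ∀ z ∈ Z, ∀ d ∈ E, z * d = d * z := (comm_bot_iff Z E).mp (upper_commutes E hEE n)
  have hED : E ≤ D := by
    have h4 : ⁅E, E⁆ ≤ ⁅E, Z ⊔ D⁆ := commutator_mono le_rfl (by rw [htop]; exact le_top)
    have h5 : ⁅E, Z ⊔ D⁆ ≤ D := by
      rw [commutator_le]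
      intro e he x hx
      rw [mem_sup_of_normal_left] at hx
      obtain ⟨z, hz, d, hd, rfl⟩ := hx
      have e1 : ⁅e, z * d⁆ = (e * z * e⁻¹ * z⁻¹) * (z * (e * d * e⁻¹ * d⁻¹) * z⁻¹) := by
        rw [commutatorElement_def]; group
      have e2 : e * z * e⁻¹ * z⁻¹ = 1 := by
        have := hZE z hz e he
        rw [← this]; group
      rw [e1, e2, one_mul]
      apply hDn.conj_mem
      exact mul_mem (hDn.conj_mem d hd e) (inv_mem hd)
    rw [hEE] at h4
    exact h4.trans h5
  have hpart1 : InForm G (N ⊓ Z : Subgroup G) :=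
    inForm_nilpotent_part Z D (upper_nilpotent n) hZD htop _ inf_le_right
  have hpart2 : InForm G E := by
    by_cases hE0 : E = ⊥
    · subst hE0
      refine (InForm.refl G).of_surjective (1 : G →* (⊥ : Subgroup G)) ?_
      intro y
      exact ⟨1, Subsingleton.elim _ _⟩
    · exact inForm_perfect_part h3 hG Z D A hZD htop hn hDD hA hAc E hEn hED hEE hE0
  refine (inForm_prod hpart1 hpart2).of_surjective
    { toFun := fun q => (⟨q.1.1 * q.2.1, mul_mem q.1.2.1 (hEN q.2.2)⟩ : N)
      map_one' := Subtype.ext (mul_one 1)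
      map_mul' := ?_ } ?_
  · rintro ⟨⟨a, ha⟩, ⟨b, hb⟩⟩ ⟨⟨c, hc⟩, ⟨d, hd⟩⟩
    apply Subtype.ext
    change a * c * (b * d) = a * b * (c * d)
    have := hZE c hc.2 b hb
    calc a * c * (b * d) = a * (c * b) * d := by group
      _ = a * (b * c) * d := by rw [this]
      _ = a * b * (c * d) := by group
  · rintro ⟨x, hx⟩
    have hx' : x ∈ E ⊔ Z := by
      rw [hEZ]
      exact mem_sup_left hx
    rw [mem_sup_of_normal_right] at hx'
    obtain ⟨e, he, z, hz, rfl⟩ := hx'
    have hzN : z ∈ N := by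
      have := mul_mem (inv_mem (hEN he)) hx
      rwa [inv_mul_cancel_left] at this
    refine ⟨(⟨z, hzN, hz⟩, ⟨e, he⟩), ?_⟩
    apply Subtype.ext
    exact hZE z hz e he

end Pool.Agent.H69
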