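import Pool.Agent.Lib.H69.Formation.Suff2

/-!
The nonabelian monolith case and the main induction.
-/

namespace Pool.Agent.H69

open Subgroup
open scoped commutatorElement

theorem mem_map_of_quotient (H : Formation) {G A : Type} [Group G] [Group A] (f : G →* A)
    (N : Subgroup G) [N.Normal] (hker : f.ker = N) (h : H.mem (f.range)) : H.mem (G ⧸ N) := by
  subst hker
  exact H.iso _ _ (QuotientGroup.quotientKerEquivRange f).symm h

theorem inForm_of_nonabelian_monolith {F : Formation} (h2 : CondTower' F) {G : Type} [Group G]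
    (hG : F.mem G) {A : Subgroup G} (hA : IsMonolith A) (hna : ⁅A, A⁆ ≠ ⊥)
    (N : Subgroup G) (hN : N.Normal) : InForm G N := by
  intro H hH
  have hfin := F.finite G hG
  have hAn := hA.1
  have hC := centralizer_monolith_eq_bot hA hna
  obtain ⟨m1, m2⟩ := hA.minNormal.monolith_quotient hna
  set C := centralizer (A : Set G) with hCdef
  have hCn : C.Normal := inferInstance
  have hTna : ⁅A.map (QuotientGroup.mk' C), A.map (QuotientGroup.mk' C)⁆ ≠ ⊥ := by
    rw [m2]; exact m1.2.1
  have hMn : (N.map (QuotientGroup.mk' C)).Normal := hN.map _ (QuotientGroup.mk'_surjective _)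
  have hinj : Function.Injective (QuotientGroup.mk' C) := by
    rw [← MonoidHom.ker_eq_bot_iff, QuotientGroup.ker_mk', hC]
  -- `M` is in `H`
  have hM : H.mem (N.map (QuotientGroup.mk' C)) := by
    obtain ⟨L, hLn, hLH, hL⟩ := H.exists_residual hH (N.map (QuotientGroup.mk' C))
    by_cases hL0 : L = ⊥
    · subst hL0
      exact H.iso _ _ QuotientGroup.quotientBot hLH
    · exfalso
      obtain ⟨K, hK, hKL⟩ := exists_minNormal L hLn hL0
      have hKn := hK.1
      obtain ⟨f, hf⟩ := h2 G hG A hA.minNormal ((not_comm_iff A).mpr hna) _ hMn K hK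
      have h4 : L ≤ centralizer (K : Set (N.map (QuotientGroup.mk' C))) :=
        hL _ inferInstance (H.mem_of_surjective f hf (H.quot G C hH))
      have h5 := nonabelian_of_monolith m1 hTna hMn hK
      exact h5 (commutator_eq_bot_iff_le_centralizer.mpr (hKL.trans h4))
  exact H.iso _ _ (N.equivMapOfInjective _ hinj).symm hM

theorem residual_characteristic (H : Formation) {N : Type} [Group N] {L : Subgroup N}
    [hL : L.Normal] (hLH : H.mem (N ⧸ L)) (hmin : ∀ M : Subgroup N, ∀ _ : M.Normal,
      H.mem (N ⧸ M) → L ≤ M) : L.Characteristic := by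
  rw [Subgroup.characteristic_iff_le_map]
  intro φ
  have hn : (L.map φ.toMonoidHom).Normal := hL.map _ φ.surjective
  apply hmin _ hn
  exact H.iso _ _ (QuotientGroup.congr L (L.map φ.toMonoidHom) φ rfl) hLH

theorem main_induction {F : Formation} (h1 : CondAbelian F) (h2 : CondTower' F)
    (h3 : CondPerfect F) (n : ℕ) : ∀ (G : Type) [Group G], F.mem G → Nat.card G = n →
    ∀ N : Subgroup G, N.Normal → InForm G N := by
  induction n using Nat.strong_induction_on with
  | _ n ih =>
  intro G _ hG hn N hN H hH
  have hfin := F.finite G hG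
  obtain ⟨L, hLn, hLH, hL⟩ := H.exists_residual hH N
  by_cases hL0 : L = ⊥
  · subst hL0
    exact H.iso _ _ QuotientGroup.quotientBot hLH
  have hLc := residual_characteristic H hLH hL
  have hL'n : (L.map N.subtype).Normal := ConjAct.normal_of_characteristic_of_normal
  have hL'0 : L.map N.subtype ≠ ⊥ := by
    intro h
    exact hL0 ((Subgroup.map_eq_bot_iff_of_injective L N.subtype_injective).mp h)
  have hmono : IsMonolith (L.map N.subtype) := by
    refine ⟨hL'n, hL'0, ?_⟩
    intro A hAn hA0
    have h4 : InForm (G ⧸ A) (N.map (QuotientGroup.mk' A)) :=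
      ih _ (hn ▸ card_quot_lt hA0) (G ⧸ A) (F.quot G A hG) rfl _
        (hN.map _ (QuotientGroup.mk'_surjective _))
    have h5 : H.mem (N.map (QuotientGroup.mk' A)) := h4 H (H.quot G A hH)
    have h6 : H.mem (N ⧸ (A.subgroupOf N)) := by
      refine mem_map_of_quotient H ((QuotientGroup.mk' A).comp N.subtype) (A.subgroupOf N) ?_ ?_
      · ext x
        rw [MonoidHom.mem_ker, mem_subgroupOf]
        exact QuotientGroup.eq_one_iff _
      · have e : ((QuotientGroup.mk' A).comp N.subtype).range = N.map (QuotientGroup.mk' A) := by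
          rw [MonoidHom.range_comp, N.range_subtype]
        rw [e]
        exact h5
    have h7 := hL _ inferInstance h6
    rintro _ ⟨x, hx, rfl⟩
    exact h7 hx
  by_cases hab : ⁅L.map N.subtype, L.map N.subtype⁆ = ⊥
  · have hc := centralAbelian_of_condAbelian h1 G hG _ hmono.minNormal hab
    exact inForm_of_central_monolith h1 h2 h3 hG hmono hc N hN H hH
  · exact inForm_of_nonabelian_monolith h2 hG hmono hab N hN H hH

theorem prop0_of_conds {F : Formation} (h1 : CondAbelian F) (h2 : CondTower' F)
    (h3 : CondPerfect F) : Prop0 F :=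
  fun G _ N hN hG => main_induction h1 h2 h3 _ G hG rfl N hN

/-- The classification theorem. -/
theorem classification (F : Formation) :
    (∀ H : Formation, H.Sub F → H.NormallyClosed) ↔
      (CondAbelian F ∧ CondTower F ∧ CondPerfect F) := by
  rw [all_sub_normallyClosed_iff]
  constructor
  · intro h
    exact ⟨condAbelian_of_prop0 h, condTower_of_prop0 h, condPerfect_of_prop0 h⟩
  · rintro ⟨h1, h2, h3⟩
    exact prop0_of_conds h1 ((condTower_iff F).mp h2) h3

end Pool.Agent.H69
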